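import Mathlib
import Pool.Agent.W873.Kh.Names
import Pool.Agent.W873.Gmp.Final

set_option autoImplicit false
set_option linter.unusedSectionVars false
set_option linter.unusedVariables false

/-!
# Coherent systems of names for one Cohen real, and threads
-/

namespace Pool.Agent.W873.Td

open Set Cardinal Pool.Agent.Helper669.Forcing
open Pool.Agent.W873.Kh (Add1 Re cyl cyl_mono nonempty_cyl isOpen_cyl rst mem_rst mem_cyl_rst)

/-! ### General lemmas on forcing -/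

section

variable {P : Type} [Preorder P]

/-- directed sets of at most `lam` conditions have lower bounds -/
def DC (lam : Cardinal.{0}) (P : Type) [Preorder P] : Prop :=
  ∀ (ι : Type) (D : ι → P), #ι ≤ lam → Nonempty ι → (∀ i j, ∃ k, D k ≤ D i ∧ D k ≤ D j) →
    ∃ p, ∀ i, p ≤ D i

theorem exists_chain {lam : Cardinal.{0}} (h0 : ℵ₀ ≤ lam) (hP : DC lam P) {J : Type}
    [LinearOrder J] [WellFoundedLT J] (hJ : ∀ j : J, #(Iio j) ≤ lam) (p0 : P)
    (Φ : J → P → P → Prop) (step : ∀ j, ∀ m ≤ p0, ∃ m' ≤ m, Φ j m m') :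
    ∃ M : J → P, (∀ j, M j ≤ p0) ∧ (∀ j' j, j' < j → M j ≤ M j') ∧
      ∀ j, ∃ m ≤ p0, (∀ j' < j, m ≤ M j') ∧ M j ≤ m ∧ Φ j m (M j) := by
  classical
  choose! nx hnx1 hnx2 using step
  let G : (j : J) → ((j' : J) → j' < j → P) → P := fun j ih =>
    if h : ∃ m, m ≤ p0 ∧ ∀ j' (h' : j' < j), m ≤ ih j' h' then nx j h.choose else p0
  let M : J → P := (wellFounded_lt (α := J)).fix G
  have hM : ∀ j, M j = G j fun j' _ => M j' := fun j => (wellFounded_lt (α := J)).fix_eq G j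
  have key : ∀ j, (∃ m ≤ p0, (∀ j' < j, m ≤ M j') ∧ M j ≤ m ∧ Φ j m (M j)) := by
    intro j
    induction j using (wellFounded_lt (α := J)).induction with
    | _ j ih =>
      have h1 : ∀ j' < j, ∀ j'' < j', M j' ≤ M j'' := by
        intro j' hj' j'' hj''
        obtain ⟨m, _, h2, h3, _⟩ := ih j' hj'
        exact h3.trans (h2 j'' hj'')
      have h2 : ∀ j' < j, M j' ≤ p0 := by
        intro j' hj'
        obtain ⟨m, h3, _, h4, _⟩ := ih j' hj'
        exact h4.trans h3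
      obtain ⟨m, hm⟩ := hP (Option (Iio j)) (fun o => match o with
        | none => p0
        | some a => M a.1) (by
          rw [mk_option]
          exact add_le_of_le h0 (hJ j) (one_le_aleph0.trans h0)) ⟨none⟩ (by
          rintro (_ | a) (_ | b)
          · exact ⟨none, le_rfl, le_rfl⟩
          · exact ⟨some b, h2 b.1 b.2, le_rfl⟩
          · exact ⟨some a, le_rfl, h2 a.1 a.2⟩
          · rcases lt_trichotomy a.1 b.1 with h3 | h3 | h3
            · exact ⟨some b, h1 b.1 b.2 a.1 h3, le_rfl⟩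
            · exact ⟨some a, le_rfl, by
                change M a.1 ≤ M b.1
                rw [h3]⟩
            · exact ⟨some a, le_rfl, h1 a.1 a.2 b.1 h3⟩)
      have hex : ∃ m, m ≤ p0 ∧ ∀ j' (h' : j' < j), m ≤ M j' :=
        ⟨m, hm none, fun j' hj' => hm (some ⟨j', hj'⟩)⟩
      have h3 : M j = nx j hex.choose := by
        rw [hM j]
        exact dif_pos hex
      obtain ⟨h4, h5⟩ := hex.choose_spec
      refine ⟨hex.choose, h4, h5, ?_, ?_⟩
      · rw [h3]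
        exact hnx1 j _ h4
      · rw [h3]
        exact hnx2 j _ h4
  refine ⟨M, fun j => ?_, fun j' j hj => ?_, key⟩
  · obtain ⟨m, h1, _, h2, _⟩ := key j
    exact h2.trans h1
  · obtain ⟨m, _, h1, h2, _⟩ := key j
    exact h2.trans (h1 j' hj)

/-- chains -/
theorem DC.lb {lam : Cardinal.{0}} (hP : DC lam P) {J : Type} [LinearOrder J] [Nonempty J]
    (hJ : #J ≤ lam) (M : J → P) (hM : ∀ j' j, j' < j → M j ≤ M j') : ∃ p, ∀ j, p ≤ M j := by
  refine hP J M hJ inferInstance fun i j => ?_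
  rcases lt_trichotomy i j with h | h | h
  · exact ⟨j, hM i j h, le_rfl⟩
  · exact ⟨i, le_rfl, by rw [h]⟩
  · exact ⟨i, le_rfl, hM j i h⟩

end

/-! ### Projections -/

section

variable {P Q : Type} [Preorder P] [Preorder Q]

/-- projections of forcing notions -/
structure Pj (π : Q → P) : Prop where
  mono : ∀ q q' : Q, q' ≤ q → π q' ≤ π q
  lift : ∀ q, ∀ p ≤ π q, ∃ q' ≤ q, π q' ≤ p

/-- the pullback of a name -/
def pb (π : Q → P) (N : Set P) : Set Q := {q | ∃ s ∈ N, π q ≤ s}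

variable {π : Q → P}

theorem down_pb (h : Pj π) (N : Set P) : Down (pb π N) := by
  rintro q ⟨s, hs, h1⟩ q' hq'
  exact ⟨s, hs, (h.mono _ _ hq').trans h1⟩

theorem mem_pb (h : Pj π) {N : Set P} {q : Q} : q ∈ meets (pb π N) ↔ π q ∈ meets N := by
  constructor
  · intro h1 p hp
    obtain ⟨q', hq', h2⟩ := h.lift q p hp
    obtain ⟨r, hr, s, ⟨s', hs', h3⟩, h4⟩ := h1 q' hq'
    exact ⟨π r, (h.mono _ _ hr).trans h2, s', hs', (h.mono _ _ h4).trans h3⟩
  · intro h1 q' hq'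
    obtain ⟨r, hr, s, hs, h2⟩ := h1 (π q') (h.mono _ _ hq')
    obtain ⟨q'', hq'', h3⟩ := h.lift q' r hr
    exact ⟨q'', hq'', q'', ⟨s, hs, h3.trans h2⟩, le_rfl⟩

theorem pj_fimp (h : Pj π) {φ ψ : Set P} {φ' ψ' : Set Q} {q : Q} (hq : π q ∈ fimp φ ψ)
    (h1 : ∀ q, q ∈ φ' → π q ∈ φ) (h2 : ∀ q, π q ∈ ψ → q ∈ ψ') (hd : Down ψ) :
    q ∈ fimp φ' ψ' := by
  refine mem_fimp.2 fun q' hq' h3 => ?_
  obtain ⟨p, hp, h4⟩ := mem_fimp.1 hq (π q') (h.mono _ _ hq') (h1 _ h3)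
  obtain ⟨q'', hq'', h5⟩ := h.lift q' p hp
  exact ⟨q'', hq'', h2 _ (hd _ h4 _ h5)⟩

theorem pj_fex (h : Pj π) {ι ι' : Sort _} {φ : ι → Set P} {φ' : ι' → Set Q} {q : Q}
    (hq : π q ∈ fex φ) (f : ι → ι')
    (h1 : ∀ i q, π q ∈ φ i → q ∈ φ' (f i)) (hd : ∀ i, Down (φ i)) :
    q ∈ fex φ' := by
  refine mem_fex.2 fun q' hq' => ?_
  obtain ⟨p, hp, i, h2⟩ := mem_fex.1 hq (π q') (h.mono _ _ hq')
  obtain ⟨q'', hq'', h3⟩ := h.lift q' p hp
  exact ⟨q'', hq'', f i, h1 _ _ (hd i _ h2 _ h3)⟩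

theorem pj_isFun (h : Pj π) {X Y : Type} {E : X → Y → Set P} {q : Q} (hq : π q ∈ IsFun E) :
    q ∈ IsFun fun x y => pb π (E x y) := by
  refine ⟨fun x => ?_, fun x y y' => ?_⟩
  · exact pj_fex h (hq.1 x) id (fun y q hq => (mem_pb h).2 hq) (fun y => down_meets _)
  · exact pj_fimp h (hq.2 x y y') (fun q hq => ⟨(mem_pb h).1 hq.1, (mem_pb h).1 hq.2⟩)
      (fun q hq => hq) (down_fground _)

open Pool.Agent.W873.Gmp in
theorem pj_isTree (h : Pj π) {W L Lam : Type} [LinearOrder Lam] {R : L → L → Set P}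
    {ℓ : L → Lam → Set P} {q : Q} (hq : π q ∈ IsTree W R ℓ) :
    q ∈ IsTree W (fun x y => pb π (R x y)) (fun x a => pb π (ℓ x a)) := by
  refine ⟨pj_isFun h hq.1, fun x y a b => ?_, fun x y z => ?_, fun y b a hab => ?_,
    fun x y z a => ?_, fun a => ?_, fun a => ?_⟩
  · exact pj_fimp h (hq.2.1 x y a b)
      (fun q hq => ⟨(mem_pb h).1 hq.1, (mem_pb h).1 hq.2.1, (mem_pb h).1 hq.2.2⟩)
      (fun q hq => hq) (down_fground _)
  · exact pj_fimp h (hq.2.2.1 x y z) (fun q hq => ⟨(mem_pb h).1 hq.1, (mem_pb h).1 hq.2⟩)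
      (fun q hq => (mem_pb h).2 hq) (down_meets _)
  · exact pj_fimp h (hq.2.2.2.1 y b a hab) (fun q hq => (mem_pb h).1 hq)
      (fun q hq => pj_fex h hq id (fun x q hq => ⟨(mem_pb h).2 hq.1, (mem_pb h).2 hq.2⟩)
        (fun x => down_fand (down_meets _) (down_meets _))) (down_fex _)
  · exact pj_fimp h (hq.2.2.2.2.1 x y z a) (fun q hq => ⟨⟨(mem_pb h).1 hq.1.1,
      (mem_pb h).1 hq.1.2⟩, (mem_pb h).1 hq.2.1, (mem_pb h).1 hq.2.2⟩) (fun q hq => hq)
      (down_fground _)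
  · exact pj_fex h (hq.2.2.2.2.2.1 a) id (fun x q hq => (mem_pb h).2 hq) (fun x => down_meets _)
  · refine pj_fex h (hq.2.2.2.2.2.2 a) (fun F w x => pb π (F w x))
      (fun F q hq => ⟨pj_isFun h hq.1, fun x => ?_⟩)
      (fun F => down_fand (down_IsFun _) (down_fall fun _ => down_fimp _ _))
    exact pj_fimp h (hq.2 x) (fun q hq => (mem_pb h).1 hq)
      (fun q hq => pj_fex h hq id (fun w q hq => (mem_pb h).2 hq) (fun w => down_meets _))
      (down_fex _)

end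

/-! ### Functions with finite modulus -/

/-- `f` is determined by finitely many digits -/
def Ct {V : Type} (f : Re → V) : Prop := ∀ c, ∃ n, ∀ c' : Re, (∀ k < n, c' k = c k) → f c' = f c

theorem Ct.const {V : Type} (v : V) : Ct (fun _ : Re => v) := fun _ => ⟨0, fun _ _ => rfl⟩

theorem Ct.two {V V' : Type} {f : Re → V} {g : Re → V'} (hf : Ct f) (hg : Ct g) (c : Re) :
    ∃ n, ∀ c' : Re, (∀ k < n, c' k = c k) → f c' = f c ∧ g c' = g c := by
  obtain ⟨n, h⟩ := hf c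
  obtain ⟨m, h'⟩ := hg c
  exact ⟨max n m, fun c' hc => ⟨h c' fun k hk => hc k (hk.trans_le (le_max_left _ _)),
    h' c' fun k hk => hc k (hk.trans_le (le_max_right _ _))⟩⟩

theorem Ct.ite {V : Type} {H : Re → Prop} (hH : Ct H) {f g : Re → V} (hf : Ct f) (hg : Ct g)
    [∀ c, Decidable (H c)] : Ct fun c => if H c then f c else g c := by
  intro c
  obtain ⟨n, h⟩ := hf.two hg c
  obtain ⟨m, h'⟩ := hH c
  refine ⟨max n m, fun c' hc => ?_⟩
  have h1 := h c' fun k hk => hc k (hk.trans_le (le_max_left _ _))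
  have h2 := h' c' fun k hk => hc k (hk.trans_le (le_max_right _ _))
  simp only [h2, h1.1, h1.2]

theorem ct_cyl (s : Add1) : Ct fun c => c ∈ cyl s := by
  intro c
  refine ⟨s.1.sup (fun a => a.1) + 1, fun c' hc => ?_⟩
  have h : ∀ a ∈ s.1, c' a.1 = c a.1 := fun a ha =>
    hc a.1 (Nat.lt_succ_of_le (Finset.le_sup (f := fun a : ℕ × Bool => a.1) ha))
  refine propext ⟨fun h1 a ha => ?_, fun h1 a ha => ?_⟩
  · rw [← h a ha]
    exact h1 a ha
  · rw [h a ha]
    exact h1 a ha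

/-- `c` agrees with `x` up to `n` -/
def Ag (x : Re) (n : ℕ) (c : Re) : Prop := ∀ k < n, c k = x k

theorem ct_ag (x : Re) (n : ℕ) : Ct fun c => Ag x n c := by
  intro c
  refine ⟨n, fun c' hc => propext ⟨fun h k hk => ?_, fun h k hk => ?_⟩⟩
  · rw [← hc k hk]
    exact h k hk
  · rw [hc k hk]
    exact h k hk

theorem exists_rst {s : Add1} {c : Re} (hc : c ∈ cyl s) (n : ℕ) : ∃ t ≤ s, c ∈ cyl t ∧
    ∀ c' ∈ cyl t, ∀ k < n, c' k = c k := by
  let m := max n (s.1.sup (fun a => a.1) + 1)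
  refine ⟨rst c m, ?_, ?_, ?_⟩
  · intro a ha
    refine mem_rst.2 ⟨?_, hc a ha⟩
    have : a.1 ≤ s.1.sup (fun a => a.1) := Finset.le_sup (f := fun a : ℕ × Bool => a.1) ha
    exact lt_of_lt_of_le (Nat.lt_succ_of_le this) (le_max_right _ _)
  · exact mem_cyl_rst.2 fun _ _ => rfl
  · intro c' hc' k hk
    exact mem_cyl_rst.1 hc' k (hk.trans_le (le_max_left _ _))

theorem Ct.loc {V : Type} {f : Re → V} (hf : Ct f) (s : Add1) :
    ∃ t ≤ s, ∃ v, ∀ c ∈ cyl t, f c = v := by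
  obtain ⟨c, hc⟩ := nonempty_cyl s
  obtain ⟨n, h⟩ := hf c
  obtain ⟨t, ht, _, h1⟩ := exists_rst hc n
  exact ⟨t, ht, f c, fun c' hc' => h c' (h1 c' hc')⟩

variable {K : Type}

/-! ### Equality up to finite sets -/

/-- It is forced that `a` and `b` differ at finitely many ordinals below `g`. -/
def Eqs [LT K] (g : K) (a b : K → Re → Bool) : Prop :=
  ∀ s : Add1, ∃ t ≤ s, ∃ F : Finset K, ∀ z < g, z ∉ F → ∀ c ∈ cyl t, a z c = b z c

section

variable [LinearOrder K]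

theorem Eqs.refl (g : K) (a : K → Re → Bool) : Eqs g a a :=
  fun s => ⟨s, le_rfl, ∅, fun _ _ _ _ _ => rfl⟩

theorem Eqs.symm {g : K} {a b : K → Re → Bool} (h : Eqs g a b) : Eqs g b a := by
  intro s
  obtain ⟨t, ht, F, h1⟩ := h s
  exact ⟨t, ht, F, fun z hz hF c hc => (h1 z hz hF c hc).symm⟩

theorem Eqs.trans {g : K} {a b d : K → Re → Bool} (h : Eqs g a b) (h' : Eqs g b d) :
    Eqs g a d := by
  classical
  intro s
  obtain ⟨t, ht, F, h1⟩ := h s
  obtain ⟨u, hu, G, h2⟩ := h' t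
  refine ⟨u, hu.trans ht, F ∪ G, fun z hz hF c hc => ?_⟩
  rw [Finset.notMem_union] at hF
  exact (h1 z hz hF.1 c (cyl_mono hu hc)).trans (h2 z hz hF.2 c hc)

theorem Eqs.mono {g g' : K} {a b : K → Re → Bool} (h : Eqs g a b) (hg : g' ≤ g) :
    Eqs g' a b := by
  intro s
  obtain ⟨t, ht, F, h1⟩ := h s
  exact ⟨t, ht, F, fun z hz => h1 z (hz.trans_le hg)⟩

theorem Eqs.of_eq {g : K} {a b : K → Re → Bool} (h : ∀ z < g, a z = b z) : Eqs g a b :=
  fun s => ⟨s, le_rfl, ∅, fun z hz _ c _ => by rw [h z hz]⟩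

theorem Eqs.congr {g : K} {a b a' b' : K → Re → Bool} (h : Eqs g a b) (ha : ∀ z < g, a' z = a z)
    (hb : ∀ z < g, b' z = b z) : Eqs g a' b' :=
  (Eqs.of_eq ha).trans (h.trans (Eqs.of_eq fun z hz => (hb z hz).symm))

/-- pointwise mixing -/
theorem Eqs.mix {g : K} {a b d f : K → Re → Bool} (h : Eqs g a d) (h' : Eqs g b d)
    (hf : ∀ z c, f z c = a z c ∨ f z c = b z c) : Eqs g f d := by
  classical
  intro s
  obtain ⟨t, ht, F, h1⟩ := h s
  obtain ⟨u, hu, G, h2⟩ := h' t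
  refine ⟨u, hu.trans ht, F ∪ G, fun z hz hF c hc => ?_⟩
  rw [Finset.notMem_union] at hF
  rcases hf z c with h3 | h3
  · rw [h3]
    exact h1 z hz hF.1 c (cyl_mono hu hc)
  · rw [h3]
    exact h2 z hz hF.2 c hc

/-- from below `g0` and above `g0` -/
theorem Eqs.glue {g g0 : K} {a b : K → Re → Bool} (h : Eqs g0 a b)
    (h' : ∀ z < g, g0 ≤ z → a z = b z) : Eqs g a b := by
  intro s
  obtain ⟨t, ht, F, h1⟩ := h s
  refine ⟨t, ht, F, fun z hz hF c hc => ?_⟩
  rcases lt_or_ge z g0 with h2 | h2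
  · exact h1 z h2 hF c hc
  · rw [h' z hz h2]

end

/-! ### The forcing notions -/

variable [LinearOrder K]

variable (K) in
/-- coherent systems of length `g + 1` -/
structure Rc where
  g : K
  e : K → K → Re → Bool
  ce : ∀ z b, z < b → b ≤ g → Ct (e z b)
  coh : ∀ b b', b < b' → b' ≤ g → Eqs b (fun z => e z b) (fun z => e z b')

instance : Preorder (Rc K) where
  le q p := p.g ≤ q.g ∧ ∀ z b, z < b → b ≤ p.g → q.e z b = p.e z b
  le_refl p := ⟨le_rfl, fun _ _ _ _ => rfl⟩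
  le_trans p q r h h' := ⟨h'.1.trans h.1, fun z b hz hb =>
    (h.2 z b hz (hb.trans h'.1)).trans (h'.2 z b hz hb)⟩

variable (K) in
/-- coherent systems with a thread -/
structure RT extends Rc K where
  t : K → Re → Bool
  ct : ∀ z < g, Ct (t z)
  th : Eqs g t (fun z => e z g)

/-- the system -/
abbrev RT.r (p : RT K) : Rc K := p.toRc

instance : Preorder (RT K) where
  le q p := q.r ≤ p.r ∧ ∀ z < p.g, q.t z = p.t z
  le_refl p := ⟨le_rfl, fun _ _ => rfl⟩
  le_trans p q r h h' := ⟨h.1.trans h'.1, fun z hz =>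
    (h.2 z (hz.trans_le h'.1.1)).trans (h'.2 z hz)⟩

theorem Rc.le_def {q p : Rc K} : q ≤ p ↔ p.g ≤ q.g ∧ ∀ z b, z < b → b ≤ p.g →
    q.e z b = p.e z b := Iff.rfl

theorem RT.le_def {q p : RT K} : q ≤ p ↔ q.r ≤ p.r ∧ ∀ z < p.g, q.t z = p.t z := Iff.rfl

/-- the column of a smaller system -/
theorem Rc.col {q p : Rc K} (h : q ≤ p) : Eqs p.g (fun z => p.e z p.g) (fun z => q.e z q.g) := by
  rcases h.1.lt_or_eq with h1 | h1
  · refine (q.coh p.g q.g h1 le_rfl).congr (fun z hz => ?_) fun z hz => rfl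
    exact (h.2 z p.g hz le_rfl).symm
  · rw [← h1]
    exact Eqs.of_eq fun z hz => (h.2 z p.g hz le_rfl).symm

/-- the thread of a smaller condition -/
theorem RT.thr {q p : RT K} (h : q ≤ p) : Eqs p.g p.t (fun z => q.e z q.g) :=
  p.th.trans (Rc.col h.1)

/-- transplanting the thread above the length of `q` -/
def tp (q m : RT K) (h : Eqs q.g q.t m.t) (hg : q.g ≤ m.g) : RT K where
  toRc := m.toRc
  t := fun z => if z < q.g then q.t z else m.t z
  ct := by
    intro z hz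
    split_ifs with h1
    · exact q.ct z h1
    · exact m.ct z hz
  th := by
    refine Eqs.trans (Eqs.glue (g0 := q.g) (h.congr (fun z hz => ?_) fun z hz => rfl)
      fun z _ hz => ?_) m.th
    · rw [if_pos hz]
    · rw [if_neg (not_lt.2 hz)]

/-- same system -/
def Sim (q p : RT K) : Prop := q.r ≤ p.r ∧ p.r ≤ q.r

theorem Sim.symm {q p : RT K} (h : Sim q p) : Sim p q := ⟨h.2, h.1⟩

theorem Sim.refl (q : RT K) : Sim q q := ⟨le_rfl, le_rfl⟩

theorem Sim.trans {q p m : RT K} (h : Sim q p) (h' : Sim p m) : Sim q m :=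
  ⟨h.1.trans h'.1, h'.2.trans h.2⟩

theorem Sim.g {q p : RT K} (h : Sim q p) : q.g = p.g := le_antisymm h.2.1 h.1.1

theorem Sim.eqs {q q0 m : RT K} (h : Sim q q0) (hm : m ≤ q0) : Eqs q.g q.t m.t := by
  have h1 : Eqs q.g q.t (fun z => m.e z m.g) := by
    refine q.th.trans ?_
    have h2 := Rc.col (h.2.trans' hm.1)
    exact h2
  have h2 : Eqs q.g m.t (fun z => m.e z m.g) := m.th.mono (by
    rw [h.g]
    exact hm.1.1)
  exact h1.trans h2.symm

/-- the thread of `m` above `q` -/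
def tpl {q q0 m : RT K} (h : Sim q q0) (hm : m ≤ q0) : RT K :=
  tp q m (h.eqs hm) (by rw [h.g]; exact hm.1.1)

section

variable {q q0 m m' : RT K}

theorem tpl_r (h : Sim q q0) (hm : m ≤ q0) : (tpl h hm).r = m.r := rfl

theorem tpl_sim (h : Sim q q0) (hm : m ≤ q0) : Sim (tpl h hm) m := ⟨le_rfl, le_rfl⟩

theorem tpl_lt (h : Sim q q0) (hm : m ≤ q0) {z : K} (hz : z < q.g) : (tpl h hm).t z = q.t z :=
  if_pos hz

theorem tpl_ge (h : Sim q q0) (hm : m ≤ q0) {z : K} (hz : q.g ≤ z) : (tpl h hm).t z = m.t z :=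
  if_neg (not_lt.2 hz)

theorem tpl_le (h : Sim q q0) (hm : m ≤ q0) : tpl h hm ≤ q :=
  ⟨show m.r ≤ q.r from hm.1.trans h.2, fun z hz => tpl_lt h hm hz⟩

theorem tpl_mono (h : Sim q q0) (hm : m ≤ q0) (hm' : m' ≤ m) :
    tpl h (hm'.trans hm) ≤ tpl h hm := by
  refine ⟨hm'.1, fun z hz => ?_⟩
  have hz' : z < m.g := hz
  rcases lt_or_ge z q.g with h1 | h1
  · rw [tpl_lt h _ h1, tpl_lt h _ h1]
  · rw [tpl_ge h _ h1, tpl_ge h _ h1, hm'.2 z hz']

/-- a condition below `q` is its own transplant -/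
theorem tpl_self (h : Sim q q0) (hm : m ≤ q) (hm' : m' ≤ q0) (hr : m'.r ≤ m.r)
    (ht : ∀ z < m.g, q.g ≤ z → m'.t z = m.t z) : tpl h hm' ≤ m := by
  refine ⟨hr, fun z hz => ?_⟩
  rcases lt_or_ge z q.g with h1 | h1
  · rw [tpl_lt h _ h1, hm.2 z h1]
  · rw [tpl_ge h _ h1]
    exact ht z hz h1

end

/-- extending a thread -/
def lft (q : RT K) {r : Rc K} (h : r ≤ q.r) : RT K where
  toRc := r
  t := fun z => if z < q.g then q.t z else r.e z r.g
  ct := by
    intro z hz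
    split_ifs with h1
    · exact q.ct z h1
    · exact r.ce z r.g hz le_rfl
  th := by
    refine Eqs.glue (g0 := q.g) ((q.th.trans (Rc.col h)).congr (fun z hz => ?_) fun z hz => rfl)
      fun z _ hz => ?_
    · rw [if_pos hz]
    · rw [if_neg (not_lt.2 hz)]

theorem lft_le (q : RT K) {r : Rc K} (h : r ≤ q.r) : lft q h ≤ q := ⟨h, fun _ hz => if_pos hz⟩

theorem pj_r : Pj (fun q : RT K => q.r) where
  mono _ _ h := h.1
  lift q r h := ⟨lft q h, lft_le q h, le_rfl⟩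

/-- the longest column as a thread -/
def Rc.top (r : Rc K) : RT K where
  toRc := r
  t := fun z => r.e z r.g
  ct := fun z hz => r.ce z r.g hz le_rfl
  th := Eqs.refl _ _

end Pool.Agent.W873.Td
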