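import Mathlib
import Pool.Agent.W873.Td.Basic

set_option autoImplicit false
set_option linter.unusedSectionVars false
set_option linter.unusedVariables false

/-!
# Closure
-/

namespace Pool.Agent.W873.Td

open Set Cardinal Pool.Agent.Helper669.Forcing
open Pool.Agent.W873.Kh (Add1 Re cyl cyl_mono nonempty_cyl isOpen_cyl rst mem_rst mem_cyl_rst)

variable {K : Type} [LinearOrder K]

/-- families of at most `lam` elements are bounded -/
def Bd (lam : Cardinal.{0}) (K : Type) [LT K] : Prop :=
  ∀ (ι : Type) (f : ι → K), #ι ≤ lam → ∃ b, ∀ i, f i < b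

theorem dc_RT [WellFoundedLT K] {lam : Cardinal.{0}} (hb : Bd lam K) : DC lam (RT K) := by
  classical
  intro ι D hι hne hdir
  obtain ⟨b, hb⟩ := hb ι (fun i => (D i).g) hι
  have hU : ({b | ∀ i, (D i).g ≤ b} : Set K).Nonempty := ⟨b, fun i => (hb i).le⟩
  obtain ⟨γ, hγ, hmin⟩ := WellFounded.has_min (wellFounded_lt (α := K)) _ hU
  have hγ : ∀ i, (D i).g ≤ γ := hγ
  have hC : ∀ β < γ, ∃ i, β < (D i).g := by
    intro β hβ
    by_contra hcon
    push Not at hcon
    exact hmin β hcon hβ
  let t : K → Re → Bool := fun z => if h : ∃ i, z < (D i).g then (D h.choose).t z else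
    fun _ => false
  let e : K → K → Re → Bool := fun z β => if h : ∃ i, β ≤ (D i).g then (D h.choose).e z β else t z
  have hE : ∀ i z β, z < β → β ≤ (D i).g → e z β = (D i).e z β := by
    intro i z β hz hβ
    have h : ∃ i, β ≤ (D i).g := ⟨i, hβ⟩
    have h1 : e z β = (D h.choose).e z β := dif_pos h
    obtain ⟨k, hk1, hk2⟩ := hdir i h.choose
    rw [h1, ← hk1.1.2 z β hz hβ, ← hk2.1.2 z β hz h.choose_spec]
  have hT : ∀ i z, z < (D i).g → t z = (D i).t z := by
    intro i z hz
    have h : ∃ i, z < (D i).g := ⟨i, hz⟩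
    have h1 : t z = (D h.choose).t z := dif_pos h
    obtain ⟨k, hk1, hk2⟩ := hdir i h.choose
    rw [h1, ← hk1.2 z hz, ← hk2.2 z h.choose_spec]
  have hN : ∀ β, (¬ ∃ i, β ≤ (D i).g) → ∀ z, e z β = t z := fun β h z => dif_neg h
  let p : RT K :=
    { g := γ
      e := e
      t := t
      ce := by
        intro z β hz hβ
        by_cases h : ∃ i, β ≤ (D i).g
        · obtain ⟨i, hi⟩ := h
          rw [hE i z β hz hi]
          exact (D i).ce z β hz hi
        · rw [hN β h]
          obtain ⟨i, hi⟩ := hC z (hz.trans_le hβ)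
          rw [hT i z hi]
          exact (D i).ct z hi
      coh := by
        intro β β' hβ hβ'
        obtain ⟨i, hi⟩ := hC β (hβ.trans_le hβ')
        by_cases h : ∃ i, β' ≤ (D i).g
        · obtain ⟨j, hj⟩ := h
          exact ((D j).coh β β' hβ hj).congr (fun z hz => hE j z β hz (hβ.le.trans hj))
            fun z hz => hE j z β' (hz.trans hβ) hj
        · have h1 : Eqs β (fun z => (D i).e z β) (D i).t :=
            ((D i).coh β _ hi le_rfl).trans ((D i).th.mono hi.le).symm
          refine h1.congr (fun z hz => hE i z β hz hi.le) fun z hz => ?_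
          rw [hN β' h]
          exact hT i z (hz.trans hi)
      ct := by
        intro z hz
        obtain ⟨i, hi⟩ := hC z hz
        rw [hT i z hi]
        exact (D i).ct z hi
      th := by
        by_cases h : ∃ i, γ ≤ (D i).g
        · obtain ⟨i, hi⟩ := h
          have h1 : (D i).g = γ := le_antisymm (hγ i) hi
          have h2 := (D i).th
          rw [h1] at h2
          exact h2.congr (fun z hz => hT i z (hz.trans_le hi)) fun z hz => hE i z γ hz hi
        · exact Eqs.of_eq fun z _ => (hN γ h z).symm }
  refine ⟨p, fun i => ⟨⟨hγ i, fun z β hz hβ => hE i z β hz hβ⟩, fun z hz => hT i z hz⟩⟩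

/-- extending the length -/
theorem RT.exists_long (p : RT K) {b : K} (hb : p.g ≤ b) : ∃ q ≤ p, q.g = b := by
  classical
  let t : K → Re → Bool := fun z => if z < p.g then p.t z else fun _ => false
  have ht : ∀ z, Ct (t z) := by
    intro z
    simp only [t]
    split_ifs with h
    · exact p.ct z h
    · exact Ct.const _
  have ht1 : ∀ z < p.g, t z = p.t z := fun z hz => if_pos hz
  let e : K → K → Re → Bool := fun z β => if β ≤ p.g then p.e z β else t z
  have he : ∀ z β, β ≤ p.g → e z β = p.e z β := fun z β h => if_pos h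
  have he' : ∀ z β, ¬ β ≤ p.g → e z β = t z := fun z β h => if_neg h
  let q : RT K :=
    { g := b
      e := e
      t := t
      ce := by
        intro z β hz hβ
        by_cases h : β ≤ p.g
        · rw [he z β h]
          exact p.ce z β hz h
        · rw [he' z β h]
          exact ht z
      coh := by
        intro β β' hβ hβ'
        by_cases h : β' ≤ p.g
        · exact (p.coh β β' hβ h).congr (fun z hz => he z β (hβ.le.trans h)) fun z hz => he z β' h
        · by_cases h' : β ≤ p.g
          · have h1 : Eqs β (fun z => p.e z β) (fun z => p.e z p.g) := by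
              rcases h'.lt_or_eq with h2 | h2
              · exact p.coh β p.g h2 le_rfl
              · rw [h2]
                exact Eqs.refl _ _
            refine (h1.trans (p.th.mono h').symm).congr (fun z hz => he z β h') fun z hz => ?_
            rw [he' z β' h, ht1 z (hz.trans_le h')]
          · refine Eqs.of_eq fun z hz => ?_
            rw [he' z β h', he' z β' h]
      ct := fun z _ => ht z
      th := by
        by_cases h : b ≤ p.g
        · have h1 : b = p.g := le_antisymm h hb
          subst h1
          exact p.th.congr (fun z hz => ht1 z hz) fun z hz => he z _ le_rfl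
        · exact Eqs.of_eq fun z _ => (he' z b h).symm }
  exact ⟨q, ⟨⟨hb, fun z β _ hβ => he z β hβ⟩, fun z hz => ht1 z hz⟩, rfl⟩

theorem RT.exists_longer (p : RT K) (b : K) : ∃ q ≤ p, b ≤ q.g := by
  rcases le_total p.g b with h | h
  · obtain ⟨q, hq, h1⟩ := p.exists_long h
    exact ⟨q, hq, h1.ge⟩
  · exact ⟨p, le_rfl, h⟩

theorem Rc.exists_longer (p : Rc K) (b : K) : ∃ q ≤ p, b ≤ q.g := by
  obtain ⟨q, hq, h1⟩ := p.top.exists_longer b
  exact ⟨q.r, hq.1, h1⟩

end Pool.Agent.W873.Td
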