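import Mathlib
import Pool.Agent.W873.Td.Closed
import Pool.Agent.W873.Gp.Basic

set_option autoImplicit false
set_option linter.unusedSectionVars false
set_option linter.unusedVariables false

/-!
# Splitting a new branch
-/

namespace Pool.Agent.W873.Td

open Set Cardinal Pool.Agent.Helper669.Forcing
open Pool.Agent.W873.Gmp (for' IsTree IsCofinalBranch TreeProp down_for' for'_left for'_right
  t_unique t_total t_lt t_trans t_pred t_uniq t_ne t_small t_comp meets_dn)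
open Pool.Agent.W873.Gp (not_meets mem_meets_fground)
open Pool.Agent.W873.Kh (Add1 Re cyl cyl_mono nonempty_cyl isOpen_cyl rst mem_rst mem_cyl_rst)

theorem for'_elim {P : Type} [Preorder P] {φ ψ : Set P} {p : P} (h : p ∈ for' φ ψ) :
    ∃ q ≤ p, q ∈ φ ∨ q ∈ ψ := by
  by_contra hcon
  push Not at hcon
  exact h p le_rfl ⟨fun q hq hn => (hcon q hq).1 hn, fun q hq hn => (hcon q hq).2 hn⟩

theorem fnot_dn {P : Type} [Preorder P] {φ : Set P} {p q : P} (h : p ∈ fnot φ) (hq : q ≤ p) :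
    q ∈ fnot φ := down_fnot _ _ h _ hq

variable {K : Type} [LinearOrder K] [WellFoundedLT K] {W L : Type}

/-- A new branch `B` of the tree named by `R` and `ℓ`. -/
structure Hy (W : Type) (R : L → L → Set (Rc K)) (ℓ : L → K → Set (Rc K)) (B : L → Set (RT K))
    (q1 : RT K) : Prop where
  tree : q1.r ∈ IsTree W R ℓ
  br : q1 ∈ IsCofinalBranch (fun x y => pb (fun q : RT K => q.r) (R x y))
    (fun x a => pb (fun q : RT K => q.r) (ℓ x a)) B
  nb : ∀ B' : L → Set (Rc K), ∀ r ≤ q1.r, r ∉ IsCofinalBranch R ℓ B'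
  unb : ∀ a : K, ∃ b, a < b

variable {R : L → L → Set (Rc K)} {ℓ : L → K → Set (Rc K)} {B : L → Set (RT K)} {q1 : RT K}

theorem Hy.cmp (H : Hy W R ℓ B q1) {q : RT K} (hq : q ≤ q1) {x y : L} {a b : K} (hab : a < b)
    (hx : q ∈ meets (B x)) (hy : q ∈ meets (B y)) (hxa : q.r ∈ meets (ℓ x a))
    (hyb : q.r ∈ meets (ℓ y b)) : q.r ∈ meets (R x y) := by
  refine Gp.meets_of_dense fun r hr => ?_
  obtain ⟨q2, hq2, h1⟩ := pj_r.lift q r hr
  obtain ⟨q3, hq3, h2⟩ := mem_fimp.1 (H.br.1 x y) q2 (hq2.trans hq)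
    ⟨meets_dn hx hq2, meets_dn hy hq2⟩
  obtain ⟨q4, hq4, h3⟩ := for'_elim h2
  have h4 : q4.r ≤ r := ((pj_r.mono _ _ hq4).trans (pj_r.mono _ _ hq3)).trans h1
  have h5 : q4.r ≤ q1.r := h4.trans (hr.trans hq.1)
  rcases h3 with h3 | h3
  · have h3 : x = y := h3
    subst h3
    exact absurd (t_unique H.tree h5 (meets_dn hxa (h4.trans hr)) (meets_dn hyb (h4.trans hr)))
      hab.ne
  · obtain ⟨q5, hq5, h6⟩ := for'_elim h3
    have h7 : q5.r ≤ r := (pj_r.mono _ _ hq5).trans h4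
    rcases h6 with h6 | h6
    · exact ⟨q5.r, h7, (mem_pb pj_r).1 h6⟩
    · have := t_lt H.tree (h7.trans (hr.trans hq.1)) ((mem_pb pj_r).1 h6)
        (meets_dn hyb (h7.trans hr)) (meets_dn hxa (h7.trans hr))
      exact absurd (this.trans hab) (lt_irrefl _)

theorem Hy.node (H : Hy W R ℓ B q1) {q : RT K} (hq : q ≤ q1) (d : K) :
    ∃ q' ≤ q, ∃ z, q' ∈ meets (B z) ∧ q'.r ∈ meets (ℓ z d) := by
  obtain ⟨q', hq', z, h1, h2⟩ := mem_fex.1 (H.br.2 d) q hq
  exact ⟨q', hq', z, h1, (mem_pb pj_r).1 h2⟩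

/-- incompatible decisions of the branch over the same system -/
def Sp (R : L → L → Set (Rc K)) (ℓ : L → K → Set (Rc K)) (B : L → Set (RT K)) (p p' : RT K) :
    Prop :=
  Sim p p' ∧ ∃ x y a b, a < b ∧ p ∈ meets (B x) ∧ p' ∈ meets (B y) ∧ p.r ∈ meets (ℓ x a) ∧
    p.r ∈ meets (ℓ y b) ∧ p.r ∈ fnot (meets (R x y))

/-- the threads differ above `g` only at reals which agree with `x` up to `n` -/
def Df (g : K) (p p' : RT K) (x : Re) (n : ℕ) : Prop :=
  ∀ z, g ≤ z → z < p.g → ∀ c, ¬ Ag x n c → p.t z c = p'.t z c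

def Spl (R : L → L → Set (Rc K)) (ℓ : L → K → Set (Rc K)) (B : L → Set (RT K)) (q : RT K)
    (x : Re) (n : ℕ) : Prop :=
  ∃ p ≤ q, ∃ p' ≤ q, Sp R ℓ B p p' ∧ Df q.g p p' x n

def Per (R : L → L → Set (Rc K)) (ℓ : L → K → Set (Rc K)) (B : L → Set (RT K)) (q : RT K)
    (x : Re) (n : ℕ) : Prop := ∀ q' ≤ q, Spl R ℓ B q' x n

theorem Spl.mono {q q' : RT K} {x : Re} {n : ℕ} (h : Spl R ℓ B q' x n) (hq : q' ≤ q) :
    Spl R ℓ B q x n := by
  obtain ⟨p, hp, p', hp', h1, h2⟩ := h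
  refine ⟨p, hp.trans hq, p', hp'.trans hq, h1, fun z hz hzp c hc => ?_⟩
  rcases lt_or_ge z q'.g with h3 | h3
  · rw [hp.2 z h3, hp'.2 z h3]
  · exact h2 z h3 hzp c hc

theorem Per.mono {q q' : RT K} {x : Re} {n : ℕ} (h : Per R ℓ B q x n) (hq : q' ≤ q) :
    Per R ℓ B q' x n := fun q'' hq'' => h q'' (hq''.trans hq)

theorem Ag.congr {x x' : Re} {n : ℕ} (h : ∀ k < n, x k = x' k) {c : Re} :
    Ag x n c ↔ Ag x' n c :=
  ⟨fun h1 k hk => (h1 k hk).trans (h k hk), fun h1 k hk => (h1 k hk).trans (h k hk).symm⟩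

theorem Per.congr {q : RT K} {x x' : Re} {n : ℕ} (h : Per R ℓ B q x n)
    (hx : ∀ k < n, x k = x' k) : Per R ℓ B q x' n := by
  intro q' hq'
  obtain ⟨p, hp, p', hp', h1, h2⟩ := h q' hq'
  exact ⟨p, hp, p', hp', h1, fun z hz hzp c hc => h2 z hz hzp c fun h3 => hc ((Ag.congr hx).1 h3)⟩

theorem lft_sim (q q' : RT K) {r : Rc K} (h : r ≤ q.r) (h' : r ≤ q'.r) : Sim (lft q h) (lft q' h') :=
  ⟨le_rfl, le_rfl⟩

/-- Every condition can be split. -/
theorem Hy.spl (H : Hy W R ℓ B q1) {q : RT K} (hq : q ≤ q1) (x0 : Re) : Spl R ℓ B q x0 0 := by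
  by_contra hcon
  have hdf : ∀ p p' : RT K, Df q.g p p' x0 0 := fun p p' z _ _ c hc =>
    absurd (fun k hk => absurd hk (Nat.not_lt_zero _)) hc
  have key : ∀ p ≤ q, ∀ p' ≤ q, Sim p p' → ∀ x y a b, a < b → p ∈ meets (B x) →
      p' ∈ meets (B y) → p.r ∈ meets (ℓ x a) → p.r ∈ meets (ℓ y b) → p.r ∈ meets (R x y) := by
    intro p hp p' hp' hs x y a b hab hx hy hxa hyb
    by_contra hn
    obtain ⟨r, hr, h1⟩ := not_meets hn
    refine hcon ⟨lft p hr, (lft_le p hr).trans hp, lft p' (hr.trans hs.1), (lft_le p' _).trans hp',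
      ⟨lft_sim _ _ _ _, x, y, a, b, hab, meets_dn hx (lft_le _ _), meets_dn hy (lft_le _ _),
      meets_dn hxa hr, meets_dn hyb hr, h1⟩, hdf _ _⟩
  let B' : L → Set (Rc K) := fun u => {r | ∃ p ≤ q, p ∈ meets (B u) ∧ r ≤ p.r}
  have hBd : ∀ u, Down (B' u) := by
    rintro u r ⟨p, hp, h1, h2⟩ r' hr'
    exact ⟨p, hp, h1, hr'.trans h2⟩
  refine H.nb B' q.r hq.1 ⟨fun u v => ?_, fun a => ?_⟩
  · refine mem_fimp.2 fun r hr h1 => ?_
    obtain ⟨r1, hr1, p, hp, hpu, hrp⟩ := exists_of_meets (hBd u) h1.1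
    obtain ⟨r2, hr2, p', hp', hpv, hrp'⟩ := exists_of_meets (hBd v) (meets_dn h1.2 hr1)
    have hr0 : r2 ≤ q1.r := (hr2.trans hr1).trans (hr.trans hq.1)
    obtain ⟨r3, hr3, a, ha⟩ := t_total H.tree hr0 u
    obtain ⟨r4, hr4, b, hb⟩ := t_total H.tree (hr3.trans hr0) v
    have ha := meets_dn ha hr4
    have h4 : r4 ≤ r2 := hr4.trans hr3
    let P := lft p ((h4.trans hr2).trans hrp)
    let P' := lft p' (h4.trans hrp')
    have hP : P ≤ q := (lft_le _ _).trans hp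
    have hP' : P' ≤ q := (lft_le _ _).trans hp'
    have hPu : P ∈ meets (B u) := meets_dn hpu (lft_le _ _)
    have hPv : P' ∈ meets (B v) := meets_dn hpv (lft_le _ _)
    have hS : Sim P P' := ⟨le_rfl, le_rfl⟩
    refine ⟨r4, (h4.trans hr2).trans hr1, ?_⟩
    rcases lt_trichotomy a b with hab | hab | hab
    · exact for'_right (down_for' _ _) (for'_left (down_meets _)
        (key P hP P' hP' hS u v a b hab hPu hPv ha hb))
    · subst hab
      obtain ⟨d, hd⟩ := H.unb a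
      obtain ⟨m, hm, z, hz, hzd⟩ := H.node (hP'.trans hq) d
      have hm2 : m.r ≤ P'.r := hm.1
      have hm1 : m.r ≤ P.r := hm2.trans hS.2
      let P2 := lft P hm1
      have e1 : m.r ∈ meets (R u z) := key P2 ((lft_le _ _).trans hP) m (hm.trans hP')
        ⟨le_rfl, le_rfl⟩ u z a d hd (meets_dn hPu (lft_le _ _)) hz (meets_dn ha hm1) hzd
      have e2 : m.r ∈ meets (R v z) := H.cmp (hm.trans (hP'.trans hq)) hd (meets_dn hPv hm) hz
        (meets_dn hb hm1) hzd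
      have e3 : u = v := t_uniq H.tree ((hm.trans (hP'.trans hq)).1) e1 e2 (meets_dn ha hm1)
        (meets_dn hb hm1)
      exact for'_left (down_fground _) e3
    · exact for'_right (down_for' _ _) (for'_right (down_meets _)
        (key P' hP' P hP hS.symm v u b a hab hPv hPu hb ha))
  · refine mem_fex.2 fun r hr => ?_
    obtain ⟨m, hm, z, hz, hza⟩ := H.node (q := lft q hr) ((lft_le _ _).trans hq) a
    exact ⟨m.r, hm.1, z, meets_of_mem ⟨m, hm.trans (lft_le _ _), hz, le_rfl⟩, hza⟩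

theorem Hy.per (H : Hy W R ℓ B q1) {q : RT K} (hq : q ≤ q1) (x0 : Re) : Per R ℓ B q x0 0 :=
  fun _ hq' => H.spl (hq'.trans hq) x0

/-- the hybrid of two conditions -/
noncomputable def hyb (p p' : RT K) (h : Sim p p') (x : Re) (n : ℕ) : RT K := by
  classical
  exact
  { toRc := p.toRc
    t := fun z c => if Ag x n c then p.t z c else p'.t z c
    ct := fun z hz => (ct_ag x n).ite (p.ct z hz) (p'.ct z (by rw [← h.g]; exact hz))
    th := by
      refine Eqs.mix p.th (b := p'.t) ?_ fun z c => ?_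
      · have h1 := p'.th.trans (Rc.col h.1)
        rw [← h.g] at h1
        exact h1
      · by_cases h2 : Ag x n c
        · exact Or.inl (if_pos h2)
        · exact Or.inr (if_neg h2) }

theorem hyb_pos {p p' : RT K} {h : Sim p p'} {x : Re} {n : ℕ} {z : K} {c : Re} (hc : Ag x n c) :
    (hyb p p' h x n).t z c = p.t z c := by
  unfold hyb
  exact if_pos hc

theorem hyb_neg {p p' : RT K} {h : Sim p p'} {x : Re} {n : ℕ} {z : K} {c : Re}
    (hc : ¬ Ag x n c) : (hyb p p' h x n).t z c = p'.t z c := by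
  unfold hyb
  exact if_neg hc

theorem hyb_sim {p p' : RT K} {h : Sim p p'} {x : Re} {n : ℕ} : Sim p (hyb p p' h x n) :=
  ⟨le_rfl, le_rfl⟩

theorem hyb_le {p p' q : RT K} {h : Sim p p'} {x : Re} {n : ℕ} (hp : p ≤ q) (hp' : p' ≤ q) :
    hyb p p' h x n ≤ q := by
  refine ⟨hp.1, fun z hz => funext fun c => ?_⟩
  by_cases hc : Ag x n c
  · rw [hyb_pos hc, hp.2 z hz]
  · rw [hyb_neg hc, hp'.2 z hz]

/-- changing one digit -/
def up (x : Re) (n : ℕ) (i : Bool) : Re := fun k => if k = n then i else x k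

theorem up_self (x : Re) (n : ℕ) (i : Bool) : up x n i n = i := if_pos rfl

theorem up_ne (x : Re) {n k : ℕ} (i : Bool) (h : k ≠ n) : up x n i k = x k := if_neg h

theorem ag_succ {x : Re} {n : ℕ} {i : Bool} {c : Re} :
    Ag (up x n i) (n + 1) c ↔ Ag x n c ∧ c n = i := by
  constructor
  · intro h
    refine ⟨fun k hk => ?_, ?_⟩
    · rw [h k (hk.trans (Nat.lt_succ_self n))]
      exact up_ne _ _ hk.ne
    · rw [h n (Nat.lt_succ_self n)]
      exact up_self _ _ _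
  · rintro ⟨h1, h2⟩ k hk
    rcases Nat.lt_succ_iff_lt_or_eq.1 hk with h3 | h3
    · rw [h1 k h3]
      exact (up_ne _ _ h3.ne).symm
    · subst h3
      rw [h2]
      exact (up_self _ _ _).symm

/-- Splitting can be localised. -/
theorem Hy.half (H : Hy W R ℓ B q1) {q : RT K} (hq : q ≤ q1) {x : Re} {n : ℕ}
    (h : Spl R ℓ B q x n) : Spl R ℓ B q (up x n false) (n + 1) ∨
      Spl R ℓ B q (up x n true) (n + 1) := by
  obtain ⟨p, hp, p', hp', ⟨hs, u, v, a, b, hab, hu, hv, hua, hvb, hn⟩, hdf⟩ := h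
  set x0 : Re := up x n false with hx0
  set x1 : Re := up x n true with hx1
  let ps := hyb p p' hs x0 (n + 1)
  have hps : ps ≤ q := hyb_le hp hp'
  obtain ⟨d, hd⟩ := H.unb b
  obtain ⟨m, hm, w, hw, hwd⟩ := H.node (hps.trans hq) d
  have hs1 : Sim p ps := hyb_sim
  have hs2 : Sim p' ps := hs.symm.trans hs1
  have hmr : m.r ≤ p.r := hm.1
  have hmq : m.r ≤ q1.r := (hm.trans (hps.trans hq)).1
  -- one of the relations fails
  have hex : (∃ r ≤ m.r, r ∈ fnot (meets (R u w))) ∨ ∃ r ≤ m.r, r ∈ fnot (meets (R v w)) := by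
    by_contra hcon
    push Not at hcon
    have e1 : m.r ∈ meets (R u w) := by
      by_contra h1
      obtain ⟨r, hr, h2⟩ := not_meets h1
      exact hcon.1 r hr h2
    have e2 : m.r ∈ meets (R v w) := by
      by_contra h1
      obtain ⟨r, hr, h2⟩ := not_meets h1
      exact hcon.2 r hr h2
    exact hn m.r hmr (t_comp H.tree hmq e1 e2 (meets_dn hua hmr) (meets_dn hvb hmr) hab)
  rcases hex with ⟨r, hr, h1⟩ | ⟨r, hr, h1⟩
  · right
    let m' := lft m hr
    have hm' : m' ≤ m := lft_le _ _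
    have hm'' : m' ≤ ps := hm'.trans hm
    have hr1 : r ≤ p.r := hr.trans hmr
    refine ⟨tpl hs1 hm'', (tpl_le _ _).trans hp, m', hm''.trans hps, ⟨⟨le_rfl, le_rfl⟩, u, w, a, d,
      hab.trans hd, meets_dn hu (tpl_le _ _), meets_dn hw hm', meets_dn hua hr1,
      meets_dn hwd hr, h1⟩, fun z hz hz' c hc => ?_⟩
    rcases lt_or_ge z p.g with h2 | h2
    · rw [tpl_lt _ _ h2, hm''.2 z h2]
      by_cases h3 : Ag x0 (n + 1) c
      · rw [hyb_pos h3]
      · rw [hyb_neg h3]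
        refine hdf z hz h2 c fun h4 => ?_
        cases h5 : c n with
        | false => exact h3 (ag_succ.2 ⟨h4, h5⟩)
        | true => exact hc (ag_succ.2 ⟨h4, h5⟩)
    · rw [tpl_ge _ _ h2]
  · left
    let m' := lft m hr
    have hm' : m' ≤ m := lft_le _ _
    have hm'' : m' ≤ ps := hm'.trans hm
    have hr1 : r ≤ p.r := hr.trans hmr
    refine ⟨tpl hs2 hm'', (tpl_le _ _).trans hp', m', hm''.trans hps, ⟨⟨le_rfl, le_rfl⟩, v, w, b, d,
      hd, meets_dn hv (tpl_le _ _), meets_dn hw hm', meets_dn hvb hr1,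
      meets_dn hwd hr, h1⟩, fun z hz hz' c hc => ?_⟩
    rcases lt_or_ge z p'.g with h2 | h2
    · have h2' : z < ps.g := by
        rw [hs.symm.g] at h2
        exact h2
      rw [tpl_lt _ _ h2, hm''.2 z h2', hyb_neg hc]
    · rw [tpl_ge _ _ h2]

theorem Hy.step (H : Hy W R ℓ B q1) {q : RT K} (hq : q ≤ q1) {x : Re} {n : ℕ}
    (h : Per R ℓ B q x n) : ∃ q' ≤ q, ∃ i, Per R ℓ B q' (up x n i) (n + 1) := by
  by_contra hcon
  push Not at hcon
  have h1 := hcon q le_rfl false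
  unfold Per at h1
  push Not at h1
  obtain ⟨q2, hq2, h2⟩ := h1
  have h3 := hcon q2 hq2 true
  unfold Per at h3
  push Not at h3
  obtain ⟨q3, hq3, h4⟩ := h3
  rcases H.half ((hq3.trans hq2).trans hq) (h q3 (hq3.trans hq2)) with h5 | h5
  · exact h2 (h5.mono hq3)
  · exact h4 h5

/-- the real -/
theorem Hy.real {lam : Cardinal.{0}} (h0 : ℵ₀ ≤ lam) (hcl : DC lam (RT K))
    (H : Hy W R ℓ B q1) : ∃ q ≤ q1, ∃ x : Re, ∀ n, Per R ℓ B q x n := by
  classical
  let S : ℕ → Type := fun n => {s : RT K × Re // s.1 ≤ q1 ∧ Per R ℓ B s.1 s.2 n}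
  have hstep : ∀ n (s : S n), ∃ s' : S (n + 1), s'.1.1 ≤ s.1.1 ∧ ∀ k < n, s'.1.2 k = s.1.2 k := by
    intro n s
    obtain ⟨q', hq', i, h⟩ := H.step s.2.1 s.2.2
    exact ⟨⟨(q', up s.1.2 n i), hq'.trans s.2.1, h⟩, hq', fun k hk =>
      up_ne _ _ hk.ne⟩
  choose nx hnx1 hnx2 using hstep
  let s : (n : ℕ) → S n := fun n => Nat.rec ⟨(q1, fun _ => false), le_rfl, H.per le_rfl _⟩
    (fun n s => nx n s) n
  have hs : ∀ n, s (n + 1) = nx n (s n) := fun n => rfl
  have hle : ∀ n, (s (n + 1)).1.1 ≤ (s n).1.1 := fun n => by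
    rw [hs]
    exact hnx1 n _
  have hmono : ∀ m n, m ≤ n → (s n).1.1 ≤ (s m).1.1 := by
    intro m n hmn
    induction n, hmn using Nat.le_induction with
    | base => exact le_rfl
    | succ n _ ih => exact (hle n).trans ih
  obtain ⟨q, hq⟩ := hcl.lb (J := ℕ) (by rw [mk_nat]; exact h0) (fun n => (s n).1.1)
    fun j' j hj => hmono j' j hj.le
  have hval : ∀ n m, n ≤ m → ∀ k < n, (s m).1.2 k = (s n).1.2 k := by
    intro n m hnm
    induction m, hnm using Nat.le_induction with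
    | base => exact fun _ _ => rfl
    | succ m hm ih =>
      intro k hk
      rw [← ih k hk, hs]
      exact hnx2 m _ k (hk.trans_le hm)
  refine ⟨q, hq 0, fun k => (s (k + 1)).1.2 k, fun n => ?_⟩
  refine ((s n).2.2.mono (hq n)).congr fun k hk => ?_
  exact hval (k + 1) n hk k (Nat.lt_succ_self k)

end Pool.Agent.W873.Td
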