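import Mathlib
import Pool.Agent.W873.Td.Split

set_option autoImplicit false
set_option linter.unusedSectionVars false
set_option linter.unusedVariables false

/-!
# The Aronszajn tree
-/

namespace Pool.Agent.W873.Td

open Set Cardinal Pool.Agent.Helper669.Forcing
open Pool.Agent.W873.Gmp (for' IsTree IsCofinalBranch TreeProp down_for' for'_left for'_right
  t_unique t_total t_lt t_trans t_pred t_uniq t_ne t_small t_comp meets_dn)
open Pool.Agent.W873.Gp (not_meets mem_meets_fground)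
open Pool.Agent.W873.Kh (Add1 Re cyl cyl_mono nonempty_cyl isOpen_cyl rst mem_rst mem_cyl_rst)

theorem Ct.map {V V' : Type} {f : Re → V} (hf : Ct f) (φ : V → V') : Ct fun c => φ (f c) := by
  intro c
  obtain ⟨n, h⟩ := hf c
  exact ⟨n, fun c' hc => by
    simp only
    rw [h c' hc]⟩

theorem exists_dec_fin {K V : Type} (F : Finset K) (f : K → Re → V) (hf : ∀ z ∈ F, Ct (f z))
    (s : Add1) (v0 : V) : ∃ t ≤ s, ∃ v : K → V, ∀ z ∈ F, ∀ c ∈ cyl t, f z c = v z := by
  classical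
  induction F using Finset.induction_on with
  | empty => exact ⟨s, le_rfl, fun _ => v0, by simp⟩
  | insert a F ha ih =>
    obtain ⟨t, ht, v, hv⟩ := ih fun z hz => hf z (Finset.mem_insert_of_mem hz)
    obtain ⟨u, hu, w, hw⟩ := (hf a (Finset.mem_insert_self _ _)).loc t
    refine ⟨u, hu.trans ht, Function.update v a w, fun z hz c hc => ?_⟩
    by_cases h : z = a
    · subst h
      rw [Function.update_self]
      exact hw c hc
    · rw [Function.update_of_ne h]
      exact hv z ((Finset.mem_insert.1 hz).resolve_left h) c (cyl_mono hu hc)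

theorem bool_trans {a b c : Bool} {p q r : Prop} (h : a = b ↔ (p ↔ q)) (h' : b = c ↔ (q ↔ r)) :
    (a = c ↔ (p ↔ r)) := by
  cases a <;> cases b <;> cases c <;> simp at h h' ⊢ <;> tauto

variable {K : Type} [LinearOrder K] [WellFoundedLT K]

variable (K) in
/-- the nodes of the tree -/
abbrev Nd : Type := {z : K × Finset K // ∀ x ∈ z.2, x < z.1}

/-- the level of a node -/
def lv (z : Nd K) (a : K) : Set (Rc K × Add1) := fground (z.1.1 = a)

/-- `z` is below `z'` in the tree -/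
def Ra (z z' : Nd K) : Set (Rc K × Add1) :=
  {r | z.1.1 < z'.1.1 ∧ z'.1.1 ≤ r.1.g ∧ ∀ c ∈ cyl r.2, ∀ x < z.1.1,
    (r.1.e x z.1.1 c = r.1.e x z'.1.1 c ↔ (x ∈ z.1.2 ↔ x ∈ z'.1.2))}

theorem down_Ra (z z' : Nd K) : Down (Ra z z') := by
  rintro r ⟨h1, h2, h3⟩ q hq
  have hq1 : q.1 ≤ r.1 := hq.1
  have hq2 : q.2 ≤ r.2 := hq.2
  refine ⟨h1, h2.trans hq1.1, fun c hc x hx => ?_⟩
  rw [hq1.2 x z.1.1 hx (h1.le.trans h2), hq1.2 x z'.1.1 (hx.trans h1) h2]
  exact h3 c (cyl_mono hq2 hc) x hx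

theorem Ra_of_meets {z z' : Nd K} {r : Rc K × Add1} (h : r ∈ meets (Ra z z'))
    (h2 : z'.1.1 ≤ r.1.g) : r ∈ Ra z z' := by
  obtain ⟨_, _, h1⟩ := exists_of_meets (down_Ra z z') h
  have hzz := h1.1
  refine ⟨hzz, h2, fun c hc x hx => ?_⟩
  obtain ⟨n, hn⟩ := (r.1.ce x z.1.1 hx (hzz.le.trans h2)).two (r.1.ce x z'.1.1 (hx.trans hzz) h2) c
  obtain ⟨s', hs', _, h3⟩ := exists_rst hc n
  obtain ⟨q, hq, h4⟩ := exists_of_meets (down_Ra z z') (meets_dn (q := (r.1, s')) h ⟨le_rfl, hs'⟩)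
  obtain ⟨c', hc'⟩ := nonempty_cyl q.2
  have hq1 : q.1 ≤ r.1 := hq.1
  have hq2 : q.2 ≤ s' := hq.2
  have h5 := h4.2.2 c' hc' x hx
  rw [hq1.2 x z.1.1 hx (hzz.le.trans h2), hq1.2 x z'.1.1 (hx.trans hzz) h2] at h5
  obtain ⟨h6, h7⟩ := hn c' (h3 c' (cyl_mono hq2 hc'))
  rw [h6, h7] at h5
  exact h5

theorem mem_lv {z : Nd K} {a : K} {r : Rc K × Add1} : r ∈ meets (lv z a) ↔ z.1.1 = a :=
  mem_meets_fground

theorem ara_tree {W : Type} (hW : ∀ a : K, ∃ g : W → Nd K, ∀ z : Nd K, z.1.1 = a → ∃ w, g w = z)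
    (q : Rc K × Add1) : q ∈ IsTree W (Ra (K := K)) lv := by
  classical
  refine ⟨⟨fun x => ?_, fun x γ γ' => ?_⟩, fun x y γ γ' => ?_, fun x y z => ?_, fun y b α hα => ?_,
    fun x y z α => ?_, fun α => ?_, fun α => ?_⟩
  · exact mem_fex.2 fun q _ => ⟨q, le_rfl, x.1.1, mem_lv.2 rfl⟩
  · refine mem_fimp.2 fun q _ h => ⟨q, le_rfl, ?_⟩
    exact (mem_lv.1 h.1).symm.trans (mem_lv.1 h.2)
  · refine mem_fimp.2 fun q _ h => ⟨q, le_rfl, ?_⟩
    obtain ⟨r, _, h1⟩ := exists_of_meets (down_Ra x y) h.1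
    change γ < γ'
    rw [← mem_lv.1 h.2.1, ← mem_lv.1 h.2.2]
    exact h1.1
  · refine mem_fimp.2 fun q _ h => ?_
    obtain ⟨r, hr, h1⟩ := exists_of_meets (down_Ra x y) h.1
    obtain ⟨r', hr', h2⟩ := exists_of_meets (down_Ra y z) (down_meets _ _ h.2 _ hr)
    have h1' := down_Ra x y r h1 r' hr'
    refine ⟨r', hr'.trans hr, meets_of_mem ⟨h1'.1.trans h2.1, h2.2.1, fun c hc u hux => ?_⟩⟩
    exact bool_trans (h1'.2.2 c hc u hux) (h2.2.2 c hc u (hux.trans h1'.1))
  · refine mem_fimp.2 fun q _ hy => ?_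
    have hb : y.1.1 = b := mem_lv.1 hy
    obtain ⟨r, hr, hrb⟩ := q.1.exists_longer b
    obtain ⟨t, ht, F, hF⟩ := r.coh α b hα hrb q.2
    obtain ⟨u, hu, v, hv⟩ := exists_dec_fin (F.filter fun z => z < α) (fun z => r.e z α)
      (fun z hz => r.ce z α (Finset.mem_filter.1 hz).2 (hα.le.trans hrb)) t false
    obtain ⟨w, hw, v', hv'⟩ := exists_dec_fin (F.filter fun z => z < α) (fun z => r.e z b)
      (fun z hz => r.ce z b ((Finset.mem_filter.1 hz).2.trans hα) hrb) u false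
    let G : Finset K := (F.filter fun z => z < α).filter fun z => v z ≠ v' z
    let x : Nd K := ⟨(α, (symmDiff G (y.1.2.filter fun w => w < α))), by
      intro w hw
      rcases Finset.mem_symmDiff.1 hw with h1 | h1
      · exact (Finset.mem_filter.1 (Finset.mem_filter.1 h1.1).1).2
      · exact (Finset.mem_filter.1 h1.1).2⟩
    let q' : Rc K × Add1 := (r, w)
    have hq' : q' ≤ q := ⟨hr, (hw.trans hu).trans ht⟩
    have hR : q' ∈ Ra x y := by
      refine ⟨hb ▸ hα, hb ▸ hrb, fun c hc z hz => ?_⟩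
      have hz : z < α := hz
      change (r.e z α c = r.e z y.1.1 c ↔ (z ∈ symmDiff G (y.1.2.filter fun w => w < α) ↔ _))
      rw [hb]
      have hG : z ∈ G ↔ r.e z α c ≠ r.e z b c := by
        by_cases hzF : z ∈ F
        · have h1 : z ∈ F.filter fun z => z < α := Finset.mem_filter.2 ⟨hzF, hz⟩
          have h2 : z ∈ G ↔ v z ≠ v' z := ⟨fun h => (Finset.mem_filter.1 h).2,
            fun h => Finset.mem_filter.2 ⟨h1, h⟩⟩
          rw [h2, hv z h1 c (cyl_mono hw hc), hv' z h1 c hc]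
        · have h1 : z ∉ G := fun h => hzF (Finset.mem_filter.1 (Finset.mem_filter.1 h).1).1
          have h2 : r.e z α c = r.e z b c := hF z hz hzF c (cyl_mono (hw.trans hu) hc)
          simp [h1, h2]
      have hf : z ∈ y.1.2.filter (fun w => w < α) ↔ z ∈ y.1.2 :=
        ⟨fun h => (Finset.mem_filter.1 h).1, fun h => Finset.mem_filter.2 ⟨h, hz⟩⟩
      rw [Finset.mem_symmDiff, hf]
      by_cases h4 : z ∈ G
      · have h5 := hG.1 h4
        simp only [h4, true_and, not_true_eq_false, and_false, or_false]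
        tauto
      · have h5 := not_not.1 fun h => h4 (hG.2 h)
        simp only [h4, false_and, not_false_eq_true, and_true, false_or]
        tauto
    refine ⟨q', hq', mem_fex.2 fun r' hr' => ⟨r', le_rfl, x, ?_, mem_lv.2 rfl⟩⟩
    exact meets_of_mem (down_Ra x y q' hR r' hr')
  · refine mem_fimp.2 fun q _ h => ⟨q, le_rfl, ?_⟩
    obtain ⟨⟨h1, h2⟩, h3, h4⟩ := h
    obtain ⟨r, hr, h1⟩ := exists_of_meets (down_Ra x z) h1
    obtain ⟨r', hr', h2⟩ := exists_of_meets (down_Ra y z) (down_meets _ _ h2 _ hr)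
    have h1' := down_Ra x z r h1 r' hr'
    have hx : x.1.1 = α := mem_lv.1 h3
    have hy : y.1.1 = α := mem_lv.1 h4
    obtain ⟨c, hc⟩ := nonempty_cyl r'.2
    change x = y
    refine Subtype.ext (Prod.ext (hx.trans hy.symm) (Finset.ext fun w => ?_))
    have key : ∀ w < α, (w ∈ x.1.2 ↔ w ∈ y.1.2) := by
      intro w hwα
      have h5 := h1'.2.2 c hc w (hx ▸ hwα)
      have h6 := h2.2.2 c hc w (hy ▸ hwα)
      rw [hx] at h5
      rw [hy] at h6
      tauto
    constructor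
    · intro hw
      exact (key w (hx ▸ x.2 w hw)).1 hw
    · intro hw
      exact (key w (hy ▸ y.2 w hw)).2 hw
  · exact mem_fex.2 fun q _ => ⟨q, le_rfl, ⟨(α, ∅), by simp⟩, mem_lv.2 rfl⟩
  · obtain ⟨g, hg⟩ := hW α
    refine mem_fex.2 fun q1 _ => ⟨q1, le_rfl, fun w x => fground (g w = x), ⟨fun w => ?_,
      fun w x x' => ?_⟩, fun x => ?_⟩
    · exact mem_fex.2 fun r _ => ⟨r, le_rfl, g w, mem_meets_fground.2 rfl⟩
    · refine mem_fimp.2 fun r _ h1 => ⟨r, le_rfl, ?_⟩
      exact (mem_meets_fground.1 h1.1).symm.trans (mem_meets_fground.1 h1.2)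
    · refine mem_fimp.2 fun r _ h1 => ⟨r, le_rfl, mem_fex.2 fun r1 _ => ?_⟩
      obtain ⟨w, hw⟩ := hg x (mem_lv.1 h1)
      exact ⟨r1, le_rfl, w, mem_meets_fground.2 hw⟩

/-- two nodes of a branch -/
theorem branch_cmp {B : Nd K → Set (Rc K × Add1)} {p0 p : Rc K × Add1}
    (h : p0 ∈ IsCofinalBranch (Ra (K := K)) lv B) (hp : p ≤ p0) {z z' : Nd K}
    (hz : p ∈ meets (B z)) (hz' : p ∈ meets (B z')) (hlt : z.1.1 < z'.1.1)
    (hg : z'.1.1 ≤ p.1.g) : p ∈ Ra z z' := by
  refine Ra_of_meets (Gp.meets_of_dense fun q hq => ?_) hg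
  obtain ⟨q2, hq2, h1⟩ := mem_fimp.1 (h.1 z z') q (hq.trans hp) ⟨meets_dn hz hq, meets_dn hz' hq⟩
  obtain ⟨q3, hq3, h2⟩ := for'_elim h1
  rcases h2 with h2 | h2
  · have h2 : z = z' := h2
    rw [h2] at hlt
    exact absurd hlt (lt_irrefl _)
  · obtain ⟨q4, hq4, h3⟩ := for'_elim h2
    rcases h3 with h3 | h3
    · exact ⟨q4, (hq4.trans hq3).trans hq2, h3⟩
    · obtain ⟨_, _, h4⟩ := exists_of_meets (down_Ra z' z) h3
      exact absurd (h4.1.trans hlt) (lt_irrefl _)

theorem no_branch {lam : Cardinal.{0}} (h0 : ℵ₀ ≤ lam) (hb : Bd lam K) (p0 : Rc K × Add1)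
    (B : Nd K → Set (Rc K × Add1)) : p0 ∉ IsCofinalBranch (Ra (K := K)) lv B := by
  classical
  intro hB
  have hcl : DC lam (RT K) := dc_RT hb
  have hIio : ∀ j : ℕ, #(Iio j) ≤ lam := fun j => (mk_set_le _).trans (by rw [mk_nat]; exact h0)
  have hNl : #ℕ ≤ lam := by
    rw [mk_nat]
    exact h0
  -- a condition of `Add(ω, 1)` which decides unboundedly much of the branch
  have hA : ∃ r ≤ p0.1, ∃ s ≤ p0.2, ∀ r' ≤ r, ∀ α, ∃ r'' ≤ r', ∃ z : Nd K, α ≤ z.1.1 ∧
      ((r'', s) : Rc K × Add1) ∈ meets (B z) := by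
    by_contra hcon
    push Not at hcon
    obtain ⟨en, hen⟩ := exists_surjective_nat Add1
    obtain ⟨M, hM1, hM2, hM3⟩ := exists_chain h0 hcl (J := ℕ) hIio p0.1.top
      (fun k _ m' => en k ≤ p0.2 → ∃ α, ∀ r'' ≤ m'.r, ∀ z : Nd K, α ≤ z.1.1 →
        ((r'', en k) : Rc K × Add1) ∉ meets (B z)) (by
      intro k m hm
      by_cases hk : en k ≤ p0.2
      · obtain ⟨r', hr', α, h1⟩ := hcon m.r hm.1 (en k) hk
        exact ⟨lft m hr', lft_le _ _, fun _ => ⟨α, h1⟩⟩
      · exact ⟨m, le_rfl, fun h => absurd h hk⟩)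
    obtain ⟨mi, hmi⟩ := hcl.lb hNl M hM2
    choose m hm1 hm2 hm3 hΦ using hM3
    have h1 : ∀ k, ∃ α, en k ≤ p0.2 → ∀ r'' ≤ (M k).r, ∀ z : Nd K, α ≤ z.1.1 →
        ((r'', en k) : Rc K × Add1) ∉ meets (B z) := by
      intro k
      by_cases hk : en k ≤ p0.2
      · obtain ⟨α, hα⟩ := hΦ k hk
        exact ⟨α, fun _ => hα⟩
      · exact ⟨p0.1.g, fun h => absurd h hk⟩
    choose α hα using h1
    obtain ⟨α', hα'⟩ := hb ℕ α hNl
    have hle : ((mi.r, p0.2) : Rc K × Add1) ≤ p0 := ⟨((hmi 0).trans (hM1 0)).1, le_rfl⟩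
    obtain ⟨q, hq, z, hz, hzl⟩ := mem_fex.1 (hB.2 α') _ hle
    obtain ⟨k, hk⟩ := hen q.2
    have hq1 : q.1 ≤ mi.r := hq.1
    have hq2 : q.2 ≤ p0.2 := hq.2
    refine hα k (by rw [hk]; exact hq2) q.1 (hq1.trans (hmi k).1) z ?_ ?_
    · rw [mem_lv.1 hzl]
      exact (hα' k).le
    · rw [hk]
      exact hz
  obtain ⟨r, hr, s, hs, hA⟩ := hA
  -- the sequence
  obtain ⟨M, hM1, hM2, hM3⟩ := exists_chain h0 hcl (J := ℕ) hIio r.top
    (fun k m m' => ∃ z : Nd K, m.g ≤ z.1.1 ∧ z.1.1 < m'.g ∧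
      ((m'.r, s) : Rc K × Add1) ∈ meets (B z)) (by
    intro k m hm
    obtain ⟨r'', hr'', z, hz1, hz2⟩ := hA m.r hm.1 m.g
    obtain ⟨b, hbz⟩ := hb Unit (fun _ => z.1.1) (by
      rw [mk_unit]
      exact one_le_aleph0.trans h0)
    obtain ⟨m', hm', hm'b⟩ := (lft m hr'').exists_longer b
    refine ⟨m', hm'.trans (lft_le _ _), z, hz1, (hbz ()).trans_le hm'b, meets_dn hz2 ⟨hm'.1, le_rfl⟩⟩)
  obtain ⟨mi, hmi⟩ := hcl.lb hNl M hM2
  choose m hm1 hm2 hm3 z hz1 hz2 hz3 using hM3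
  let ζ : ℕ → K := fun k => (z k).1.1
  have hζg : ∀ k, ζ k < (M k).g := hz2
  have hζM : ∀ k l, k < l → (M k).g ≤ ζ l := fun k l hkl =>
    ((hm2 l k hkl).1.1).trans (hz1 l)
  have hζ : ∀ k l, k < l → ζ k < ζ l := fun k l hkl => (hζg k).trans_le (hζM k l hkl)
  have hζi : Function.Injective ζ := by
    intro k l h
    rcases lt_trichotomy k l with h1 | h1 | h1
    · exact absurd h (hζ k l h1).ne
    · exact h1
    · exact absurd h.symm (hζ l k h1).ne
  have hmg : ∀ k, (M k).g ≤ mi.g := fun k => (hmi k).1.1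
  -- the supremum
  obtain ⟨b0, hb0⟩ := hb ℕ ζ hNl
  obtain ⟨γ, hγ, hmin⟩ := WellFounded.has_min (wellFounded_lt (α := K)) {b | ∀ k, ζ k < b}
    ⟨b0, hb0⟩
  have hγ : ∀ k, ζ k < γ := hγ
  have hC : ∀ β < γ, ∃ k, β < ζ k := by
    intro β hβ
    by_contra hcon
    push Not at hcon
    refine hmin β (fun k => ?_) hβ
    exact (hζ k (k + 1) (Nat.lt_succ_self k)).trans_le (hcon (k + 1))
  have hγg : ∀ β < γ, β < mi.g := by
    intro β hβ
    obtain ⟨k, hk⟩ := hC β hβ
    exact (hk.trans (hζg k)).trans_le (hmg k)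
  have hle0 : ∀ k, ((mi.r, s) : Rc K × Add1) ≤ ((M k).r, s) := fun k => ⟨(hmi k).1, le_rfl⟩
  have hlep : ((mi.r, s) : Rc K × Add1) ≤ p0 := ⟨(((hmi 0).trans (hM1 0)).1).trans hr, hs⟩
  have hzk : ∀ k, ((mi.r, s) : Rc K × Add1) ∈ meets (B (z k)) := fun k =>
    meets_dn (hz3 k) (hle0 k)
  -- coherence of the nodes
  let h : ℕ → K → Re → Bool := fun k x c => xor (mi.e x (ζ k) c) (decide (x ∈ (z k).1.2))
  have hh : ∀ k l, k < l → ∀ x < ζ k, ∀ c ∈ cyl s, h k x c = h l x c := by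
    intro k l hkl x hx c hc
    have h1 := (branch_cmp hB hlep (hzk k) (hzk l) (hζ k l hkl) ((hζg l).le.trans (hmg l))).2.2
      c hc x hx
    have h1 : mi.e x (ζ k) c = mi.e x (ζ l) c ↔ (x ∈ (z k).1.2 ↔ x ∈ (z l).1.2) := h1
    simp only [h]
    by_cases h2 : x ∈ (z k).1.2 <;> by_cases h3 : x ∈ (z l).1.2 <;>
      cases h4 : mi.e x (ζ k) c <;> cases h5 : mi.e x (ζ l) c <;>
      simp [h2, h3, h4, h5] at h1 ⊢
  have hh' : ∀ k l, ∀ x, x < ζ k → x < ζ l → ∀ c ∈ cyl s, h k x c = h l x c := by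
    intro k l x hx hx' c hc
    rcases lt_trichotomy k l with h1 | h1 | h1
    · exact hh k l h1 x hx c hc
    · rw [h1]
    · exact (hh l k h1 x hx' c hc).symm
  -- the new column
  let ix : K → ℕ := fun x => if hx : ∃ k, x < ζ k then hx.choose else 0
  have hix : ∀ x < γ, x < ζ (ix x) := by
    intro x hx
    have h1 := hC x hx
    simp only [ix, dif_pos h1]
    exact h1.choose_spec
  let T : K → Re → Bool := fun x c => if c ∈ cyl s then
    xor (h (ix x) x c) (decide (x ∈ range ζ)) else mi.t x c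
  have hTc : ∀ x < γ, Ct (T x) := by
    intro x hx
    refine (ct_cyl s).ite ?_ (mi.ct x (hγg x hx))
    have h1 := mi.ce x (ζ (ix x)) (hix x hx) ((hζg _).le.trans (hmg _))
    exact (h1.map fun b => xor (xor b (decide (x ∈ (z (ix x)).1.2))) (decide (x ∈ range ζ)))
  let e : K → K → Re → Bool := fun x β => if β < γ then mi.e x β else T x
  have he : ∀ x β, β < γ → e x β = mi.e x β := fun x β h => if_pos h
  have he' : ∀ x β, ¬ β < γ → e x β = T x := fun x β h => if_neg h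
  let rs : Rc K :=
    { g := γ
      e := e
      ce := by
        intro x β hx hβ
        rcases hβ.lt_or_eq with h1 | h1
        · rw [he x β h1]
          exact mi.ce x β hx (hγg β h1).le
        · rw [he' x β (by rw [h1]; exact lt_irrefl _)]
          exact hTc x (hx.trans_le hβ)
      coh := by
        intro β β' hβ hβ'
        have hβγ := hβ.trans_le hβ'
        rcases hβ'.lt_or_eq with h1 | h1
        · exact (mi.coh β β' hβ (hγg β' h1).le).congr (fun x _ => he x β hβγ)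
            fun x _ => he x β' h1
        · have h2 : ¬ β' < γ := by
            rw [h1]
            exact lt_irrefl _
          obtain ⟨k, hk⟩ := hC β hβγ
          have g1 : Eqs β (fun x => mi.e x β) (fun x => mi.e x (ζ k)) :=
            mi.coh β (ζ k) hk ((hζg k).le.trans (hmg k))
          have g2 : Eqs β (fun x => mi.e x β) mi.t :=
            (mi.coh β mi.g (hγg β hβγ) le_rfl).trans (mi.th.mono (hγg β hβγ).le).symm
          have g3 : Eqs β (fun x => mi.e x β) T := by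
            intro s'
            by_cases h3 : ∃ t ≤ s', t ≤ s
            · obtain ⟨t, ht1, ht2⟩ := h3
              obtain ⟨u, hu, F, hF⟩ := g1 t
              refine ⟨u, hu.trans ht1, F ∪ ((z k).1.2 ∪ (Finset.range k).image ζ),
                fun x hx hxF c hc => ?_⟩
              simp only [Finset.mem_union, not_or] at hxF
              have hcs : c ∈ cyl s := cyl_mono (hu.trans ht2) hc
              have h4 : x ∉ range ζ := by
                rintro ⟨l, hl⟩
                refine hxF.2.2 (Finset.mem_image.2 ⟨l, ?_, hl⟩)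
                rw [Finset.mem_range]
                by_contra hcon
                push Not at hcon
                have h5 : ζ k ≤ ζ l := by
                  rcases hcon.lt_or_eq with h6 | h6
                  · exact (hζ k l h6).le
                  · rw [h6]
                rw [hl] at h5
                exact absurd (hx.trans hk) (not_lt.2 h5)
              have h5 : T x c = h k x c := by
                simp only [T, if_pos hcs]
                rw [decide_eq_false h4, Bool.xor_false]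
                exact hh' _ _ x (hix x (hx.trans hβγ)) (hx.trans hk) c hcs
              rw [h5, hF x hx hxF.1 c hc]
              simp only [h]
              rw [decide_eq_false hxF.2.1, Bool.xor_false]
            · obtain ⟨u, hu, F, hF⟩ := g2 s'
              refine ⟨u, hu, F, fun x hx hxF c hc => ?_⟩
              have hcs : c ∉ cyl s := by
                intro hcs
                refine h3 ?_
                obtain ⟨t, ht, hct, h4⟩ := exists_rst (cyl_mono hu hc)
                  (s.1.sup (fun a => a.1) + 1)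
                obtain ⟨t', ht', hct', h5⟩ := exists_rst hct (s.1.sup (fun a => a.1) + 1)
                refine ⟨rst c (max (s.1.sup (fun a => a.1) + 1) (s'.1.sup (fun a => a.1) + 1)),
                  ?_, ?_⟩
                · intro a ha
                  refine mem_rst.2 ⟨?_, cyl_mono hu hc a ha⟩
                  exact lt_of_lt_of_le (Nat.lt_succ_of_le (Finset.le_sup
                    (f := fun a : ℕ × Bool => a.1) ha)) (le_max_right _ _)
                · intro a ha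
                  refine mem_rst.2 ⟨?_, hcs a ha⟩
                  exact lt_of_lt_of_le (Nat.lt_succ_of_le (Finset.le_sup
                    (f := fun a : ℕ × Bool => a.1) ha)) (le_max_left _ _)
              have h5 : T x c = mi.t x c := by
                simp only [T, if_neg hcs]
              rw [h5]
              exact hF x hx hxF c hc
          exact g3.congr (fun x _ => he x β hβγ) fun x _ => he' x β' h2 }
  have hrsM : ∀ k, rs ≤ (M k).r := by
    intro k
    have h1 : (M k).g < γ := (hζM k (k + 1) (Nat.lt_succ_self k)).trans_lt (hγ (k + 1))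
    refine ⟨h1.le, fun x β hx hβ => ?_⟩
    have h2 : rs.e x β = mi.e x β := he x β (lt_of_le_of_lt hβ h1)
    rw [h2]
    exact (hmi k).1.2 x β hx hβ
  obtain ⟨r1, hr1, w, hw1, hw2⟩ := hA rs ((hrsM 0).trans (hM1 0).1) γ
  obtain ⟨r2, hr2, hr2g⟩ := r1.exists_longer w.1.1
  have hr2w : ((r2, s) : Rc K × Add1) ∈ meets (B w) := meets_dn hw2 ⟨hr2, le_rfl⟩
  have hr2s : r2 ≤ rs := hr2.trans hr1
  have hr2p : ((r2, s) : Rc K × Add1) ≤ p0 :=
    ⟨((hr2s.trans (hrsM 0)).trans (hM1 0).1).trans hr, hs⟩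
  have hr2z : ∀ k, ((r2, s) : Rc K × Add1) ∈ meets (B (z k)) := fun k =>
    meets_dn (hz3 k) ⟨hr2s.trans (hrsM k), le_rfl⟩
  have key : ∀ k, ∀ c ∈ cyl s, ∀ x < ζ k, (mi.e x (ζ k) c = r2.e x w.1.1 c ↔
      (x ∈ (z k).1.2 ↔ x ∈ w.1.2)) := by
    intro k c hc x hx
    have h1 := (branch_cmp hB hr2p (hr2z k) hr2w ((hγ k).trans_le hw1) hr2g).2.2 c hc x hx
    have h2 : r2.e x (ζ k) = mi.e x (ζ k) := by
      rw [hr2s.2 x (ζ k) hx (hγ k).le]
      exact he x (ζ k) (hγ k)
    rw [← h2]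
    exact h1
  have hE : Eqs γ (fun x => T x) (fun x => r2.e x w.1.1) := by
    have h1 : ∀ x < γ, r2.e x γ = T x := by
      intro x hx
      rw [hr2s.2 x γ hx le_rfl]
      exact he' x γ (lt_irrefl _)
    rcases hw1.lt_or_eq with h2 | h2
    · exact (r2.coh γ w.1.1 h2 hr2g).congr (fun x hx => (h1 x hx).symm) fun x _ => rfl
    · rw [← h2]
      exact Eqs.of_eq fun x hx => (h1 x hx).symm
  obtain ⟨t, ht, F, hF⟩ := hE s
  obtain ⟨k, hk⟩ : ∃ k, ζ k ∉ F ∪ w.1.2 := by
    by_contra hcon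
    push Not at hcon
    have h1 : (Set.univ : Set ℕ).Finite := by
      refine Set.Finite.of_finite_image (f := ζ) ((F ∪ w.1.2).finite_toSet.subset ?_)
        hζi.injOn
      rintro _ ⟨k, _, rfl⟩
      exact hcon k
    exact Set.infinite_univ h1
  rw [Finset.notMem_union] at hk
  obtain ⟨c, hc⟩ := nonempty_cyl t
  have hcs := cyl_mono ht hc
  have h1 := hF (ζ k) (hγ k) hk.1 c hc
  have h2 := key (ix (ζ k)) c hcs (ζ k) (hix _ (hγ k))
  have h3 : T (ζ k) c = !(h (ix (ζ k)) (ζ k) c) := by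
    simp only [T, if_pos hcs]
    rw [decide_eq_true ⟨k, rfl⟩, Bool.xor_true]
  simp only at h1
  rw [h3] at h1
  simp only [h] at h1
  by_cases h4 : ζ k ∈ (z (ix (ζ k))).1.2 <;>
    cases h5 : mi.e (ζ k) (ζ (ix (ζ k))) c <;> cases h6 : r2.e (ζ k) w.1.1 c <;>
    simp [h4, hk.2, h5, h6] at h1 h2

end Pool.Agent.W873.Td
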