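import Mathlib
import Pool.Agent.W873.Td.Split

set_option autoImplicit false
set_option linter.unusedSectionVars false
set_option linter.unusedVariables false

/-!
# A tree of conditions over one system
-/

namespace Pool.Agent.W873.Td

open Set Cardinal Pool.Agent.Helper669.Forcing
open Pool.Agent.W873.Gmp (for' IsTree IsCofinalBranch TreeProp down_for' for'_left for'_right
  t_unique t_total t_lt t_trans t_pred t_uniq t_ne t_small t_comp meets_dn)
open Pool.Agent.W873.Gp (not_meets mem_meets_fground)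
open Pool.Agent.W873.Kh (Add1 Re cyl cyl_mono nonempty_cyl isOpen_cyl rst mem_rst mem_cyl_rst)

theorem exists_wo (J : Type) : ∃ _ : LinearOrder J, WellFoundedLT J := by
  classical
  exact ⟨linearOrderOfSTO WellOrderingRel, ⟨WellOrderingRel.isWellOrder.wf⟩⟩

theorem mk_fin_pi {lam : Cardinal.{0}} (h0 : ℵ₀ ≤ lam) (I : ℕ → Type) (hI : ∀ i, #(I i) ≤ lam)
    (n : ℕ) : #(∀ i : Fin n, I i) ≤ lam := by
  rw [mk_pi]
  refine (prod_le_prod (fun i : Fin n => #(I i)) (fun _ => lam) fun i => hI i).trans ?_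
  rw [prod_const, Cardinal.lift_id, Cardinal.lift_id, mk_fin]
  exact_mod_cast power_nat_le h0

variable {K : Type} [LinearOrder K] [WellFoundedLT K] {W L : Type}
  {R : L → L → Set (Rc K)} {ℓ : L → K → Set (Rc K)} {B : L → Set (RT K)} {q1 : RT K}

/-- the conditions of the stage `n` -/
structure Fam {I : ℕ → Type} (qs : RT K) (n : ℕ) (F : (∀ i, I i) → RT K) : Prop where
  sim : ∀ f f', Sim (F f) (F f')
  dep : ∀ f f' : ∀ i, I i, (∀ i < n, f i = f' i) → F f = F f'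
  le : ∀ f, F f ≤ qs

/-- the pair decides incompatible nodes below `δ` -/
def Pr (R : L → L → Set (Rc K)) (ℓ : L → K → Set (Rc K)) (B : L → Set (RT K)) (δ : K)
    (p p' : RT K) : Prop :=
  ∃ u v a b, a < b ∧ b < δ ∧ (p ∈ meets (B u) ∧ p' ∈ meets (B v) ∨
    p' ∈ meets (B u) ∧ p ∈ meets (B v)) ∧ p.r ∈ meets (ℓ u a) ∧ p.r ∈ meets (ℓ v b) ∧
    p.r ∈ fnot (meets (R u v))

theorem Pr.mono {δ δ' : K} (hδ : δ ≤ δ') {p p' s s' : RT K} (h : Pr R ℓ B δ p p') (hs : s ≤ p)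
    (hs' : s' ≤ p') : Pr R ℓ B δ' s s' := by
  obtain ⟨u, v, a, b, hab, hb, h1, h2, h3, h4⟩ := h
  refine ⟨u, v, a, b, hab, hb.trans_le hδ, ?_, meets_dn h2 hs.1, meets_dn h3 hs.1,
    fnot_dn h4 hs.1⟩
  rcases h1 with h1 | h1
  · exact Or.inl ⟨meets_dn h1.1 hs, meets_dn h1.2 hs'⟩
  · exact Or.inr ⟨meets_dn h1.1 hs', meets_dn h1.2 hs⟩

theorem Hy.stage {lam : Cardinal.{0}} (h0 : ℵ₀ ≤ lam) (hb : Bd lam K) {I : ℕ → Type}
    (hI : ∀ i, #(I i) ≤ lam) (H : Hy W R ℓ B q1) {qs : RT K} (hqs : qs ≤ q1) {x : Re}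
    (hx : ∀ n, Per R ℓ B qs x n) {n : ℕ} {F : (∀ i, I i) → RT K} (hF : Fam qs n F)
    (f0 : ∀ i, I i) :
    ∃ F' : (∀ i, I i) → RT K, Fam qs (n + 1) F' ∧ (∀ f, F' f ≤ F f) ∧
      (∀ f f' z, (F f).g ≤ z → z < (F' f).g → ∀ c, ¬ Ag x (n + 1) c →
        (F' f).t z c = (F' f').t z c) ∧
      ∃ δ, ∀ f f', (∀ i < n, f i = f' i) → f n ≠ f' n → Pr R ℓ B δ (F' f) (F' f') := by
  classical
  have hcl : DC lam (RT K) := dc_RT hb
  let J : Type := ∀ i : Fin (n + 1), I i
  have hJ : #J ≤ lam := mk_fin_pi h0 I hI (n + 1)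
  obtain ⟨_, _⟩ := exists_wo J
  let ex : J → ∀ i, I i := fun j i => if h : i < n + 1 then j ⟨i, h⟩ else f0 i
  let rs : (∀ i, I i) → J := fun f i => f i
  have hex : ∀ f, F (ex (rs f)) = F f := fun f => hF.dep _ _ fun i hi => by
    have : i < n + 1 := hi.trans (Nat.lt_succ_self n)
    simp only [ex, rs, dif_pos this]
  have hs : ∀ f, Sim (F f) (F f0) := fun f => hF.sim f f0
  let Φ : J → RT K → RT K → Prop := fun j m m' => ∃ (hm : m ≤ F f0) (hm' : m' ≤ F f0),
    ∃ p' ≤ tpl (hs (ex j)) hm, Sim p' m' ∧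
      (∀ z, (F f0).g ≤ z → z < m'.g → ∀ c, ¬ Ag x (n + 1) c → p'.t z c = m'.t z c) ∧
      ∃ u v a b, a < b ∧ tpl (hs (ex j)) hm' ∈ meets (B u) ∧ p' ∈ meets (B v) ∧
        m'.r ∈ meets (ℓ u a) ∧ m'.r ∈ meets (ℓ v b) ∧ m'.r ∈ fnot (meets (R u v))
  obtain ⟨M, hM1, hM2, hM3⟩ := exists_chain h0 hcl (J := J)
    (fun j => (mk_set_le _).trans hJ) (F f0) Φ (by
    intro j m hm
    have h1 : tpl (hs (ex j)) hm ≤ F (ex j) := tpl_le _ _
    obtain ⟨p, hp, p', hp', ⟨hpp, u, v, a, b, hab, hu, hv, hua, hvb, hn⟩, hdf⟩ :=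
      hx (n + 1) _ (h1.trans (hF.le _))
    have hpF : p ≤ F (ex j) := hp.trans h1
    let m' := tpl (hs (ex j)).symm hpF
    have hm'0 : m' ≤ F f0 := tpl_le _ _
    have hg : (F (ex j)).g = (F f0).g := (hs (ex j)).g
    have hm' : m' ≤ m := by
      refine tpl_self (hs (ex j)).symm hm hpF ?_ fun z hz hz' => ?_
      · exact hp.1
      · rw [hp.2 z hz]
        exact tpl_ge _ _ (by rw [hg]; exact hz')
    have h2 : tpl (hs (ex j)) hm'0 ≤ p := by
      refine tpl_self (hs (ex j)) hpF hm'0 le_rfl fun z hz hz' => ?_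
      exact tpl_ge _ _ (by rw [← hg]; exact hz')
    refine ⟨m', hm', hm, hm'0, p', hp', ⟨hpp.2, hpp.1⟩, fun z hz hz' c hc => ?_, u, v, a, b, hab,
      meets_dn hu h2, hv, hua, hvb, hn⟩
    have h3 : m'.t z = p.t z := tpl_ge _ _ hz
    rw [h3]
    rcases lt_or_ge z m.g with h4 | h4
    · rw [hp.2 z h4, hp'.2 z h4]
    · exact (hdf z h4 hz' c hc).symm)
  have : Nonempty J := ⟨rs f0⟩
  obtain ⟨mi, hmi⟩ := hcl.lb hJ M hM2
  choose m hm1 hm2 hm3 hΦ using hM3
  choose hm hm' p' hp' hsim hdf u v a b hab hu hv hua hvb hn using hΦ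
  obtain ⟨δ, hδ⟩ := hb J b hJ
  let F' : (∀ i, I i) → RT K := fun f => tpl (hsim (rs f)) (hmi (rs f))
  have hF' : ∀ f, F' f ≤ p' (rs f) := fun f => tpl_le _ _
  have hle : ∀ f, F' f ≤ F f := by
    intro f
    have h1 : p' (rs f) ≤ F (ex (rs f)) := (hp' (rs f)).trans (tpl_le _ _)
    rw [hex] at h1
    exact (hF' f).trans h1
  have hval : ∀ f z, (F f0).g ≤ z → z < mi.g → ∀ c, ¬ Ag x (n + 1) c →
      (F' f).t z c = mi.t z c := by
    intro f z hz hz' c hc
    rcases lt_or_ge z (p' (rs f)).g with h1 | h1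
    · have h2 : z < (M (rs f)).g := by
        rw [← (hsim (rs f)).g]
        exact h1
      have h3 : (F' f).t z = (p' (rs f)).t z := tpl_lt _ _ h1
      rw [h3, hdf (rs f) z hz h2 c hc, (hmi (rs f)).2 z h2]
    · have h3 : (F' f).t z = mi.t z := tpl_ge _ _ h1
      rw [h3]
  refine ⟨F', ⟨fun f f' => ⟨le_rfl, le_rfl⟩, fun f f' hff => ?_, fun f => (hle f).trans (hF.le f)⟩,
    hle, fun f f' z hz hz' c hc => ?_, δ, fun f f' hff hne => ?_⟩
  · have h1 : rs f = rs f' := funext fun i => hff i.1 i.2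
    simp only [F']
    rw [h1]
  · have h1 : (F f0).g ≤ z := by
      rw [← (hs f).g]
      exact hz
    rw [hval f z h1 hz' c hc, hval f' z h1 hz' c hc]
  · -- the pair
    have hFf : F f = F f' := hF.dep f f' hff
    have key : ∀ f f' : ∀ i, I i, F f = F f' → rs f < rs f' → Pr R ℓ B δ (F' f) (F' f') := by
      intro f f' hFf hlt
      refine ⟨u (rs f), v (rs f), a (rs f), b (rs f), hab _, hδ _, Or.inr ⟨?_, ?_⟩, ?_, ?_, ?_⟩
      · have h1 : p' (rs f') ≤ tpl (hs (ex (rs f'))) (hm (rs f')) := hp' (rs f')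
        have h2 : m (rs f') ≤ M (rs f) := hm2 (rs f') (rs f) hlt
        have h3 : tpl (hs (ex (rs f'))) (hm (rs f')) ≤ tpl (hs (ex (rs f'))) (hm' (rs f)) :=
          tpl_mono (hs (ex (rs f'))) (hm' (rs f)) h2
        have h4 : tpl (hs (ex (rs f'))) (hm' (rs f)) ≤ tpl (hs (ex (rs f))) (hm' (rs f)) := by
          have e1 : F (ex (rs f')) = F (ex (rs f)) := by
            rw [hex, hex, hFf]
          refine ⟨le_rfl, fun z hz => ?_⟩
          have hz' : z < (M (rs f)).g := hz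
          rcases lt_or_ge z (F (ex (rs f))).g with h5 | h5
          · rw [tpl_lt _ _ h5, tpl_lt _ _ (by rw [e1]; exact h5), e1]
          · rw [tpl_ge _ _ h5, tpl_ge _ _ (by rw [e1]; exact h5)]
        exact meets_dn (hu (rs f)) ((((hF' f').trans h1).trans h3).trans h4)
      · exact meets_dn (hv (rs f)) (hF' f)
      · exact meets_dn (hua (rs f)) (hmi (rs f)).1
      · exact meets_dn (hvb (rs f)) (hmi (rs f)).1
      · exact fnot_dn (hn (rs f)) (hmi (rs f)).1
    have hne' : rs f ≠ rs f' := fun h => hne (congrFun h ⟨n, Nat.lt_succ_self n⟩)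
    rcases lt_or_gt_of_ne hne' with h | h
    · exact key f f' hFf h
    · obtain ⟨u, v, a, b, h1, h2, h3, h4, h5, h6⟩ := key f' f hFf.symm h
      exact ⟨u, v, a, b, h1, h2, h3.symm, h4, h5, h6⟩

/-- the limit -/
theorem Hy.limit {lam : Cardinal.{0}} (h0 : ℵ₀ ≤ lam) (hb : Bd lam K) {I : ℕ → Type}
    (hI : ∀ i, #(I i) ≤ lam) (H : Hy W R ℓ B q1) (f0 : ∀ i, I i) :
    ∃ (Q : (∀ i, I i) → RT K) (δ : K), (∀ f, Q f ≤ q1) ∧ (∀ f f', Sim (Q f) (Q f')) ∧
      ∀ f f', f ≠ f' → Pr R ℓ B δ (Q f) (Q f') := by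
  classical
  have hcl : DC lam (RT K) := dc_RT hb
  obtain ⟨qs, hqs, x, hx⟩ := H.real h0 hcl
  let S : ℕ → Type := fun n => {F : (∀ i, I i) → RT K // Fam qs n F}
  have hstep : ∀ n (F : S n), ∃ F' : S (n + 1), (∀ f, F'.1 f ≤ F.1 f) ∧
      (∀ f f' z, (F.1 f).g ≤ z → z < (F'.1 f).g → ∀ c, ¬ Ag x (n + 1) c →
        (F'.1 f).t z c = (F'.1 f').t z c) ∧
      ∃ δ, ∀ f f', (∀ i < n, f i = f' i) → f n ≠ f' n → Pr R ℓ B δ (F'.1 f) (F'.1 f') := by
    intro n F
    obtain ⟨F', h1, h2, h3, h4⟩ := H.stage h0 hb hI hqs hx F.2 f0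
    exact ⟨⟨F', h1⟩, h2, h3, h4⟩
  choose nx hnx1 hnx2 hnx3 using hstep
  let s : (n : ℕ) → S n := fun n => Nat.rec ⟨fun _ => qs, fun _ _ => ⟨le_rfl, le_rfl⟩,
    fun _ _ _ => rfl, fun _ => le_rfl⟩ (fun n s => nx n s) n
  have hs : ∀ n, s (n + 1) = nx n (s n) := fun n => rfl
  let F : ℕ → (∀ i, I i) → RT K := fun n => (s n).1
  have hF : ∀ n, Fam qs n (F n) := fun n => (s n).2
  have hle : ∀ n f, F (n + 1) f ≤ F n f := fun n f => hnx1 n (s n) f
  have hmono : ∀ m n, m ≤ n → ∀ f, F n f ≤ F m f := by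
    intro m n hmn f
    induction n, hmn using Nat.le_induction with
    | base => exact le_rfl
    | succ n _ ih => exact (hle n f).trans ih
  have hdf : ∀ n f f' z, (F n f).g ≤ z → z < (F (n + 1) f).g → ∀ c, ¬ Ag x (n + 1) c →
      (F (n + 1) f).t z c = (F (n + 1) f').t z c := fun n => hnx2 n (s n)
  have hpr : ∀ n, ∃ δ, ∀ f f', (∀ i < n, f i = f' i) → f n ≠ f' n →
      Pr R ℓ B δ (F (n + 1) f) (F (n + 1) f') := fun n => hnx3 n (s n)
  choose δ hδ using hpr
  obtain ⟨m0, hm0⟩ := hcl.lb (J := ℕ) (by rw [mk_nat]; exact h0) (fun n => F n f0)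
    fun j' j hj => hmono j' j hj.le f0
  obtain ⟨Δ, hΔ⟩ := hb ℕ δ (by rw [mk_nat]; exact h0)
  -- the threads
  let t : (∀ i, I i) → K → Re → Bool := fun f z => if h : ∃ n, z < (F n f).g then
    (F h.choose f).t z else m0.t z
  have ht : ∀ f n z, z < (F n f).g → t f z = (F n f).t z := by
    intro f n z hz
    have h : ∃ n, z < (F n f).g := ⟨n, hz⟩
    have h1 : t f z = (F h.choose f).t z := dif_pos h
    rw [h1]
    rcases le_total n h.choose with h2 | h2
    · exact (hmono _ _ h2 f).2 z hz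
    · exact ((hmono _ _ h2 f).2 z h.choose_spec).symm
  have ht' : ∀ f z, (¬ ∃ n, z < (F n f).g) → t f z = m0.t z := fun f z h => dif_neg h
  have hg : ∀ n f f', (F n f).g = (F n f').g := fun n f f' => ((hF n).sim f f').g
  have hgm : ∀ n f, (F n f).g ≤ m0.g := fun n f => by
    rw [hg n f f0]
    exact (hm0 n).1.1
  -- the values beyond the stage `N`
  have hval : ∀ N f z c, (F N f).g ≤ z → (∀ n, N ≤ n → ¬ Ag x (n + 1) c) →
      t f z c = m0.t z c := by
    intro N f z c hz hc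
    by_cases h : ∃ n, z < (F n f).g
    · obtain ⟨n, hn1, hn2⟩ : ∃ n, z < (F (n + 1) f).g ∧ ¬ z < (F n f).g := by
        have h1 : Nat.find h ≠ 0 := by
          intro h2
          have h3 := Nat.find_spec h
          rw [h2] at h3
          exact absurd (h3.trans_le ((hmono 0 N (Nat.zero_le _) f).1.1)) (not_lt.2 hz)
        obtain ⟨n, hn⟩ := Nat.exists_eq_succ_of_ne_zero h1
        refine ⟨n, ?_, Nat.find_min h (by rw [hn]; exact Nat.lt_succ_self n)⟩
        have h3 := Nat.find_spec h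
        rw [hn] at h3
        exact h3
      have hNn : N ≤ n := by
        by_contra hcon
        push Not at hcon
        have h1 : (F (n + 1) f).g ≤ (F N f).g := (hmono (n + 1) N hcon f).1.1
        exact absurd (hn1.trans_le h1) (not_lt.2 hz)
      rw [ht f (n + 1) z hn1, hdf n f f0 z (not_lt.1 hn2) hn1 c (hc n hNn),
        (hm0 (n + 1)).2 z (by rw [← hg (n + 1) f f0]; exact hn1)]
    · rw [ht' f z h]
  have hth : ∀ f, Eqs m0.g (t f) m0.t := by
    intro f s'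
    -- a condition leaving `x`
    let N := s'.1.sup (fun a => a.1) + 1
    have hN : ∀ a ∈ s'.1, a.1 < N := fun a ha =>
      Nat.lt_succ_of_le (Finset.le_sup (f := fun a : ℕ × Bool => a.1) ha)
    let s1 : Add1 := ⟨insert (N, !x N) s'.1, by
      intro a ha b hb' hab
      rw [Finset.mem_insert] at ha hb'
      rcases ha with rfl | ha
      · rcases hb' with rfl | hb'
        · rfl
        · exact absurd hab.symm (hN b hb').ne
      · rcases hb' with rfl | hb'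
        · exact absurd hab (hN a ha).ne
        · exact s'.2 a ha b hb' hab⟩
    have hs1 : s1 ≤ s' := Finset.subset_insert _ _
    obtain ⟨u, hu, G, h1⟩ := (((F (N + 1) f).th.trans (Rc.col ((hF (N + 1)).sim f f0).2)).trans
      (((F (N + 1) f0).th.symm).mono (hg (N + 1) f f0).le)) s1
    refine ⟨u, hu.trans hs1, G, fun z hz hzG c hc => ?_⟩
    have hcN : c N = !x N := cyl_mono hu hc (N, !x N) (Finset.mem_insert_self _ _)
    rcases lt_or_ge z (F (N + 1) f).g with h2 | h2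
    · rw [ht f (N + 1) z h2, h1 z h2 hzG c hc, (hm0 (N + 1)).2 z (by
        rw [← hg (N + 1) f f0]
        exact h2)]
    · refine hval (N + 1) f z c h2 fun n hn h3 => ?_
      have h4 := h3 N (by omega)
      rw [hcN] at h4
      cases h5 : x N <;> rw [h5] at h4 <;> simp at h4
  let Q : (∀ i, I i) → RT K := fun f =>
    { toRc := m0.toRc
      t := t f
      ct := by
        intro z hz
        by_cases h : ∃ n, z < (F n f).g
        · obtain ⟨n, hn⟩ := h
          rw [ht f n z hn]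
          exact (F n f).ct z hn
        · rw [ht' f z h]
          exact m0.ct z hz
      th := (hth f).trans m0.th }
  have hQ : ∀ n f, Q f ≤ F n f := by
    intro n f
    refine ⟨?_, fun z hz => ht f n z hz⟩
    exact (hm0 n).1.trans ((hF n).sim f0 f).1
  refine ⟨Q, Δ, fun f => ((hQ 0 f).trans ((hF 0).le f)).trans hqs, fun f f' => ⟨le_rfl, le_rfl⟩,
    fun f f' hne => ?_⟩
  have hex : ∃ n, f n ≠ f' n := by
    by_contra hcon
    push Not at hcon
    exact hne (funext hcon)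
  refine (hδ (Nat.find hex) f f' (fun i hi => not_not.1 (Nat.find_min hex hi))
    (Nat.find_spec hex)).mono (hΔ _).le (hQ (Nat.find hex + 1) f) (hQ (Nat.find hex + 1) f')

/-- No new branch. -/
theorem Hy.false {lam : Cardinal.{0}} (h0 : ℵ₀ ≤ lam) (hb : Bd lam K) {I : ℕ → Type}
    (hI : ∀ i, #(I i) ≤ lam) (hs : ∀ a : K, #(Iio a) ≤ lam) (hK : lam < #K) (hW : #W ≤ lam)
    (φ : K ↪ ∀ i, I i) (H : Hy W R ℓ B q1) : False := by
  classical
  have hcl : DC lam (RT K) := dc_RT hb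
  have hKn : Nonempty K := by
    rw [← mk_ne_zero_iff]
    exact (lt_of_le_of_lt (zero_le) hK).ne'
  obtain ⟨k0⟩ := hKn
  let f0 := φ k0
  obtain ⟨Q, δ, hQ, hsim, hpr⟩ := H.limit h0 hb hI f0
  obtain ⟨r', hr', E, hE, hcov⟩ := t_small H.tree (hQ f0).1 δ
  let P0 := lft (Q f0) hr'
  have hP0 : P0 ≤ Q f0 := lft_le _ _
  have hs0 : ∀ f, Sim (Q f) (Q f0) := fun f => hsim f f0
  let Φ : K → RT K → RT K → Prop := fun j m m' => ∃ (hm' : m' ≤ Q f0), ∃ w z,
    tpl (hs0 (φ j)) hm' ∈ meets (B z) ∧ m'.r ∈ meets (ℓ z δ) ∧ m'.r ∈ meets (E w z)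
  obtain ⟨M, hM1, hM2, hM3⟩ := exists_chain h0 hcl (J := K) hs P0 Φ (by
    intro j m hm
    have hm0 : m ≤ Q f0 := hm.trans hP0
    have h1 : tpl (hs0 (φ j)) hm0 ≤ Q (φ j) := tpl_le _ _
    obtain ⟨q', hq', z, hz, hzd⟩ := H.node (h1.trans (hQ _)) δ
    have hq'r : q'.r ≤ r' := by
      have h2 : q'.r ≤ m.r := hq'.1
      exact h2.trans hm.1
    obtain ⟨s, hsq, w, hw⟩ := hcov z q'.r hq'r hzd
    let q'' := lft q' hsq
    have hq'' : q'' ≤ q' := lft_le _ _
    have hq3 : q'' ≤ Q (φ j) := (hq''.trans hq').trans h1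
    let m' := tpl (hs0 (φ j)).symm hq3
    have hm'0 : m' ≤ Q f0 := tpl_le _ _
    have hg : (Q (φ j)).g = (Q f0).g := (hs0 (φ j)).g
    have hm' : m' ≤ m := by
      refine tpl_self (hs0 (φ j)).symm hm0 hq3 ?_ fun z hz hz' => ?_
      · exact (hq''.trans hq').1
      · rw [(hq''.trans hq').2 z hz]
        exact tpl_ge _ _ (by rw [hg]; exact hz')
    have h2 : tpl (hs0 (φ j)) hm'0 ≤ q'' := by
      refine tpl_self (hs0 (φ j)) hq3 hm'0 le_rfl fun z hz hz' => ?_
      exact tpl_ge _ _ (by rw [← hg]; exact hz')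
    exact ⟨m', hm', hm'0, w, z, meets_dn hz (h2.trans hq''), meets_dn hzd hsq, hw⟩)
  choose m hm1 hm2 hm3 hΦ using hM3
  choose hm' w z hz hzd hw using hΦ
  have hni : ¬ Function.Injective w := fun h => absurd (mk_le_of_injective h)
    (not_le.2 (hW.trans_lt hK))
  unfold Function.Injective at hni
  push Not at hni
  obtain ⟨j, j', hww, hne⟩ := hni
  have key : ∀ j j', w j = w j' → j < j' → False := by
    intro j j' hww hlt
    have hle : M j' ≤ M j := hM2 j j' hlt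
    have hrr : (M j').r ≤ q1.r := ((hM1 j').trans (hP0.trans (hQ f0))).1
    have hzz : z j = z j' := by
      refine IsFun.unique (down_IsFun E r' hE (M j').r (hM1 j').1) (meets_dn (hw j) hle.1) ?_
      rw [hww]
      exact hw j'
    have hne' : φ j ≠ φ j' := fun h => hlt.ne (φ.injective h)
    obtain ⟨u, v, a, b, hab, hbδ, h1, hua, hvb, hn⟩ := hpr _ _ hne'
    let p := tpl (hs0 (φ j)) (hm' j')
    let p' := tpl (hs0 (φ j')) (hm' j')
    have hp : p ≤ Q (φ j) := tpl_le _ _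
    have hp' : p' ≤ Q (φ j') := tpl_le _ _
    have hpz : p ∈ meets (B (z j')) := by
      rw [← hzz]
      exact meets_dn (hz j) (tpl_mono (hs0 (φ j)) (hm' j) hle)
    have hpz' : p' ∈ meets (B (z j')) := hz j'
    have e0 : (M j').r ≤ (Q (φ j)).r := hp.1
    have hzd' : (M j').r ∈ meets (ℓ (z j') δ) := hzd j'
    have hua' := meets_dn hua e0
    have hvb' := meets_dn hvb e0
    rcases h1 with ⟨h1, h2⟩ | ⟨h1, h2⟩
    · have e1 := H.cmp (hp.trans (hQ _)) (hab.trans hbδ) (meets_dn h1 hp) hpz hua' hzd'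
      have e2 := H.cmp (hp'.trans (hQ _)) hbδ (meets_dn h2 hp') hpz' hvb' hzd'
      exact hn (M j').r e0 (t_comp H.tree hrr e1 e2 hua' hvb' hab)
    · have e1 := H.cmp (hp'.trans (hQ _)) (hab.trans hbδ) (meets_dn h1 hp') hpz' hua' hzd'
      have e2 := H.cmp (hp.trans (hQ _)) hbδ (meets_dn h2 hp) hpz hvb' hzd'
      exact hn (M j').r e0 (t_comp H.tree hrr e1 e2 hua' hvb' hab)
  rcases lt_or_gt_of_ne hne with h | h
  · exact key j j' hww h
  · exact key j' j hww.symm h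

end Pool.Agent.W873.Td
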