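import Mathlib
import Pool.Agent.W873.Td.Fus
import Pool.Agent.W873.Td.Aron

set_option autoImplicit false
set_option linter.unusedSectionVars false
set_option linter.unusedVariables false

/-!
# The main results
-/

namespace Pool.Agent.W873.Td

open Set Cardinal Pool.Agent.Helper669.Forcing
open Pool.Agent.W873.Gmp (for' IsTree IsCofinalBranch TreeProp down_for' for'_left for'_right
  t_unique t_total t_lt t_trans t_pred t_uniq t_ne t_small t_comp meets_dn)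
open Pool.Agent.W873.Gp (not_meets mem_meets_fground)
open Pool.Agent.W873.Kh (Add1 Re cyl cyl_mono nonempty_cyl isOpen_cyl rst mem_rst mem_cyl_rst)

theorem down_isTree {P : Type} [Preorder P] {W L Lam : Type} [LinearOrder Lam]
    (R : L → L → Set P) (ℓ : L → Lam → Set P) : Down (IsTree W R ℓ) := by
  refine down_fand (down_IsFun _) (down_fand ?_ (down_fand ?_ (down_fand ?_ (down_fand ?_
    (down_fand ?_ ?_)))))
  · exact down_fall fun _ => down_fall fun _ => down_fall fun _ => down_fall fun _ => down_fimp _ _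
  · exact down_fall fun _ => down_fall fun _ => down_fall fun _ => down_fimp _ _
  · exact down_fall fun _ => down_fall fun _ => down_fall fun _ => down_fall fun _ => down_fimp _ _
  · exact down_fall fun _ => down_fall fun _ => down_fall fun _ => down_fall fun _ => down_fimp _ _
  · exact down_fall fun _ => down_fex _
  · exact down_fall fun _ => down_fex _

section

variable (lam : Cardinal.{0})

/-- `λ⁺` -/
abbrev Kl : Type := (Order.succ lam).ord.ToType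

/-- `λ` -/
abbrev Ll : Type := lam.ord.ToType

end

variable {lam : Cardinal.{0}}

theorem bd_Kl (h0 : ℵ₀ ≤ lam) : Bd lam (Kl lam) := by
  intro ι f hι
  by_contra hcon
  push Not at hcon
  have h1 : IsCofinal (range f) := fun β => by
    obtain ⟨i, hi⟩ := hcon β
    exact ⟨f i, ⟨i, rfl⟩, hi⟩
  have h2 := Order.cof_le h1
  rw [Ordinal.cof_toType, (isRegular_succ h0).cof_ord] at h2
  exact absurd h2 (not_le.2 ((mk_range_le.trans hι).trans_lt (Order.lt_succ lam)))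

theorem iio_Kl (a : Kl lam) : #(Iio a) ≤ lam := by
  have h := mk_Iio_lt a (by simp)
  rw [mk_ord_toType] at h
  exact Order.lt_succ_iff.1 h

theorem iio_Ll (a : Ll lam) : #(Iio a) ≤ lam := by
  have h := mk_Iio_lt a (by simp)
  rw [mk_ord_toType] at h
  exact h.le

theorem lt_Kl : lam < #(Kl lam) := by
  rw [mk_ord_toType]
  exact Order.lt_succ lam

theorem exists_emb (h1 : lam < lam ^ ℵ₀) : Nonempty (Kl lam ↪ ∀ _ : ℕ, Ll lam) := by
  have h2 : #(Kl lam) ≤ #(∀ _ : ℕ, Ll lam) := by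
    rw [mk_ord_toType, Order.succ_le_iff]
    refine h1.trans_le (le_of_eq ?_)
    rw [← mk_nat, ← mk_ord_toType lam, power_def]
    simp
  exact h2

theorem nonempty_Rc (h0 : ℵ₀ ≤ lam) : Nonempty (Rc (Kl lam)) := by
  have : Nonempty (Kl lam) := by
    rw [← mk_ne_zero_iff]
    exact (lt_of_le_of_lt (zero_le) lt_Kl).ne'
  obtain ⟨a⟩ := this
  exact ⟨⟨a, fun _ _ _ => false, fun _ _ _ _ => Ct.const _, fun _ _ _ _ => Eqs.refl _ _⟩⟩

/-- the tree property is kept -/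
theorem treeProp_R (h0 : ℵ₀ ≤ lam) (h1 : lam < lam ^ ℵ₀)
    (H : ∀ (Q : Type) [Preorder Q], DC lam Q → ∀ q : Q, q ∈ TreeProp Q (Kl lam) (Ll lam))
    (r : Rc (Kl lam)) : r ∈ TreeProp (Rc (Kl lam)) (Kl lam) (Ll lam) := by
  intro L R ℓ
  refine mem_fimp.2 fun r0 _ hr0 => ?_
  by_contra hcon
  push Not at hcon
  have h2 := hcon r0 le_rfl
  rw [mem_fex] at h2
  push Not at h2
  obtain ⟨r1, hr1, h3⟩ := h2
  have hT : r1 ∈ IsTree (Ll lam) R ℓ := down_isTree R ℓ r0 hr0 r1 hr1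
  have hcl : DC lam (RT (Kl lam)) := dc_RT (bd_Kl h0)
  obtain ⟨q1, hq1, h4⟩ := mem_fimp.1 (H (RT (Kl lam)) hcl r1.top L _ _) r1.top le_rfl
    (pj_isTree pj_r (q := r1.top) hT)
  obtain ⟨q2, hq2, B, hB⟩ := mem_fex.1 h4 q1 le_rfl
  have hq : q2 ≤ r1.top := hq2.trans hq1
  obtain ⟨φ⟩ := exists_emb h1
  have hHy : Hy (Ll lam) R ℓ B q2 := ⟨down_isTree R ℓ r1 hT q2.r hq.1, hB,
    fun B' r hr => h3 r (hr.trans hq.1) B', fun a => by
      obtain ⟨b, hb⟩ := bd_Kl h0 Unit (fun _ => a) (by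
        rw [mk_unit]
        exact one_le_aleph0.trans h0)
      exact ⟨b, hb ()⟩⟩
  exact hHy.false h0 (bd_Kl h0) (I := fun _ => Ll lam) (fun _ => (mk_ord_toType lam).le)
    iio_Kl lt_Kl (mk_ord_toType lam).le φ

/-- no new sequences of length `λ` of elements of the ground model -/
theorem noNew_R (h0 : ℵ₀ ≤ lam) (Z : Type) (E : Ll lam → Z → Set (Rc (Kl lam)))
    (r : Rc (Kl lam)) (hr : r ∈ IsFun E) :
    ∃ r' ≤ r, ∃ g : Ll lam → Z, ∀ a, r' ∈ meets (E a (g a)) := by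
  have hcl : DC lam (RT (Kl lam)) := dc_RT (bd_Kl h0)
  obtain ⟨M, hM1, hM2, hM3⟩ := exists_chain h0 hcl (J := Ll lam) iio_Ll r.top
    (fun a _ m' => ∃ z, m'.r ∈ meets (E a z)) (by
    intro a m hm
    obtain ⟨r', hr', z, hz⟩ := IsFun.total (down_IsFun E r hr m.r hm.1) a
    exact ⟨lft m hr', lft_le _ _, z, hz⟩)
  have : Nonempty (Ll lam) := by
    rw [← mk_ne_zero_iff, mk_ord_toType]
    exact (aleph0_pos.trans_le h0).ne'
  obtain ⟨mi, hmi⟩ := hcl.lb (mk_ord_toType lam).le M hM2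
  choose m hm1 hm2 hm3 z hz using hM3
  exact ⟨mi.r, ((hmi (Classical.arbitrary _)).trans (hM1 _)).1, z, fun a =>
    meets_dn (hz a) (hmi a).1⟩

/-- small sets are not mapped onto larger ones -/
theorem cards_R (h0 : ℵ₀ ≤ lam) {X Y : Type} (hX : #X ≤ lam) (hXY : #X < #Y)
    (E : X → Y → Set (Rc (Kl lam))) (r : Rc (Kl lam)) (hr : r ∈ fand (IsFun E) (IsOnto E)) :
    False := by
  have hcl : DC lam (RT (Kl lam)) := dc_RT (bd_Kl h0)
  obtain ⟨_, _⟩ := exists_wo X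
  have hYn : Nonempty Y := by
    rw [← mk_ne_zero_iff]
    exact (lt_of_le_of_lt (zero_le) hXY).ne'
  obtain ⟨y0⟩ := hYn
  obtain ⟨_, _, x0, _⟩ := mem_fex.1 (hr.2 y0) r le_rfl
  have : Nonempty X := ⟨x0⟩
  obtain ⟨M, hM1, hM2, hM3⟩ := exists_chain h0 hcl (J := X)
    (fun j => (mk_set_le _).trans hX) r.top
    (fun a _ m' => ∃ z, m'.r ∈ meets (E a z)) (by
    intro a m hm
    obtain ⟨r', hr', z, hz⟩ := IsFun.total (down_IsFun E r hr.1 m.r hm.1) a
    exact ⟨lft m hr', lft_le _ _, z, hz⟩)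
  obtain ⟨mi, hmi⟩ := hcl.lb hX M hM2
  choose m hm1 hm2 hm3 z hz using hM3
  have hmr : mi.r ≤ r := ((hmi x0).trans (hM1 x0)).1
  have hs : Function.Surjective z := by
    intro y
    obtain ⟨r', hr', x, hx⟩ := mem_fex.1 (hr.2 y) mi.r hmr
    refine ⟨x, ?_⟩
    exact IsFun.unique (down_IsFun E r hr.1 r' (hr'.trans hmr))
      (meets_dn (hz x) (hr'.trans (hmi x).1)) hx
  exact absurd (mk_le_of_surjective hs) (not_le.2 hXY)

theorem cards_C (h0 : ℵ₀ ≤ lam) {X Y : Type} (hX : #X ≤ lam) (hXY : #X < #Y) (hY : ℵ₀ < #Y)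
    (E : X → Y → Set (Rc (Kl lam) × Add1)) (r : Rc (Kl lam) × Add1)
    (hr : r ∈ fand (IsFun E) (IsOnto E)) : False := by
  classical
  have hcl : DC lam (RT (Kl lam)) := dc_RT (bd_Kl h0)
  obtain ⟨_, _⟩ := exists_wo (X × Add1)
  have hYn : Nonempty Y := by
    rw [← mk_ne_zero_iff]
    exact (lt_of_le_of_lt (zero_le) hXY).ne'
  obtain ⟨y0⟩ := hYn
  obtain ⟨_, _, x0, _⟩ := mem_fex.1 (hr.2 y0) r le_rfl
  have : Nonempty (X × Add1) := ⟨(x0, r.2)⟩
  have hJ1 : #(X × Add1) < #Y := by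
    rw [mk_prod, Cardinal.lift_id, Cardinal.lift_id]
    refine mul_lt_of_lt hY.le hXY (mk_le_aleph0.trans_lt hY)
  have hJ : #(X × Add1) ≤ lam := by
    rw [mk_prod, Cardinal.lift_id, Cardinal.lift_id]
    exact mul_le_of_le h0 hX (mk_le_aleph0.trans h0)
  obtain ⟨M, hM1, hM2, hM3⟩ := exists_chain h0 hcl (J := X × Add1)
    (fun j => (mk_set_le _).trans hJ) r.1.top
    (fun a _ m' => a.2 ≤ r.2 → ∃ s' ≤ a.2, ∃ z, ((m'.r, s') : Rc (Kl lam) × Add1) ∈
      meets (E a.1 z)) (by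
    intro a m hm
    by_cases ha : a.2 ≤ r.2
    · have hle : ((m.r, a.2) : Rc (Kl lam) × Add1) ≤ r := ⟨hm.1, ha⟩
      obtain ⟨⟨r', s'⟩, hr', z, hz⟩ := IsFun.total (down_IsFun E r hr.1 _ hle) a.1
      exact ⟨lft m hr'.1, lft_le _ _, fun _ => ⟨s', hr'.2, z, hz⟩⟩
    · exact ⟨m, le_rfl, fun h => absurd h ha⟩)
  obtain ⟨mi, hmi⟩ := hcl.lb hJ M hM2
  choose m hm1 hm2 hm3 hΦ using hM3
  have h1 : ∀ a : X × Add1, ∃ y, a.2 ≤ r.2 → ∃ s' ≤ a.2,
      (((M a).r, s') : Rc (Kl lam) × Add1) ∈ meets (E a.1 y) := by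
    intro a
    by_cases ha : a.2 ≤ r.2
    · obtain ⟨s', hs', z, hz⟩ := hΦ a ha
      exact ⟨z, fun _ => ⟨s', hs', hz⟩⟩
    · exact ⟨y0, fun h => absurd h ha⟩
  choose z hz using h1
  have hmr : mi.r ≤ r.1 := ((hmi (x0, r.2)).trans (hM1 _)).1
  have hs : Function.Surjective z := by
    intro y
    have hle : ((mi.r, r.2) : Rc (Kl lam) × Add1) ≤ r := ⟨hmr, le_rfl⟩
    obtain ⟨⟨r', s1⟩, hr', x, hx⟩ := mem_fex.1 (hr.2 y) _ hle
    have e1 : r' ≤ mi.r := hr'.1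
    have e2 : s1 ≤ r.2 := hr'.2
    obtain ⟨s', hs', h2⟩ := hz (x, s1) e2
    refine ⟨(x, s1), ?_⟩
    have e3 : ((r', s') : Rc (Kl lam) × Add1) ≤ r := ⟨e1.trans hmr, (show s' ≤ s1 from hs').trans e2⟩
    exact IsFun.unique (down_IsFun E r hr.1 _ e3)
      (meets_dn (q := (r', s')) h2 ⟨e1.trans (hmi _).1, le_rfl⟩)
      (meets_dn (q := (r', s')) hx ⟨le_rfl, hs'⟩)
  exact absurd (mk_le_of_surjective hs) (not_le.2 hJ1)

/-- the levels of the tree are small -/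
theorem level_Kl (h0 : ℵ₀ ≤ lam) (a : Kl lam) :
    ∃ g : Ll lam → Nd (Kl lam), ∀ z : Nd (Kl lam), z.1.1 = a → ∃ w, g w = z := by
  classical
  have h1 : #{z : Nd (Kl lam) // z.1.1 = a} ≤ #(Ll lam) := by
    rw [mk_ord_toType]
    have h2 : #{z : Nd (Kl lam) // z.1.1 = a} ≤ #(Finset (Iio a)) := by
      refine mk_le_of_injective (f := fun z : {z : Nd (Kl lam) // z.1.1 = a} =>
        z.1.1.2.subtype (fun x => x ∈ Iio a)) ?_
      rintro ⟨⟨⟨b, F⟩, hF⟩, hb⟩ ⟨⟨⟨b', F'⟩, hF'⟩, hb'⟩ h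
      simp only at hb hb' h hF hF'
      subst hb
      subst hb'
      have h1 : F = F' := by
        ext x
        constructor
        · intro hx
          have h2 : (⟨x, hF x hx⟩ : Iio b') ∈ F.subtype (fun x => x ∈ Iio b') :=
            Finset.mem_subtype.2 hx
          rw [h] at h2
          exact Finset.mem_subtype.1 h2
        · intro hx
          have h2 : (⟨x, hF' x hx⟩ : Iio b') ∈ F'.subtype (fun x => x ∈ Iio b') :=
            Finset.mem_subtype.2 hx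
          rw [← h] at h2
          exact Finset.mem_subtype.1 h2
      subst h1
      rfl
    refine h2.trans ?_
    rcases finite_or_infinite (Iio a) with h3 | h3
    · have : Finite (Finset (Iio a)) := inferInstance
      exact (mk_le_aleph0).trans h0
    · rw [mk_finset_of_infinite]
      exact iio_Kl a
  have hne : Nonempty {z : Nd (Kl lam) // z.1.1 = a} := ⟨⟨⟨(a, ∅), by simp⟩, rfl⟩⟩
  obtain ⟨e⟩ := h1
  refine ⟨fun w => (Function.invFun e w).1, fun z hz => ⟨e ⟨z, hz⟩, ?_⟩⟩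
  simp only
  rw [Function.leftInverse_invFun e.injective]

/-- the Aronszajn tree -/
theorem aronszajn_C (h0 : ℵ₀ ≤ lam) (q : Rc (Kl lam) × Add1) :
    q ∈ fex fun L : Type => fex fun R : L → L → Set (Rc (Kl lam) × Add1) =>
      fex fun ℓ : L → Kl lam → Set (Rc (Kl lam) × Add1) =>
        fand (IsTree (Ll lam) R ℓ)
          (fall fun B : L → Set (Rc (Kl lam) × Add1) => fnot (IsCofinalBranch R ℓ B)) := by
  refine mem_fex.2 fun a1 _ => ⟨a1, le_rfl, Nd (Kl lam), ?_⟩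
  refine mem_fex.2 fun a2 _ => ⟨a2, le_rfl, Ra, ?_⟩
  refine mem_fex.2 fun a3 _ => ⟨a3, le_rfl, lv, ara_tree (level_Kl h0) a3, ?_⟩
  exact fun B q1 _ => no_branch h0 (bd_Kl h0) q1 B

end Pool.Agent.W873.Td
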